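import Pool.Agent.H143R3.MT.EXL

namespace Pool.Agent.H143R3.MT

open MeasureTheory ProbabilityTheory Filter Topology
open scoped ENNReal NNReal

open Classical in
/-- indicator of a proposition -/
noncomputable def ind (P : Prop) : ℝ≥0∞ := if P then 1 else 0

theorem ite_ind (P : Prop) [Decidable P] : (if P then (1 : ℝ≥0∞) else 0) = ind P := by
  unfold ind
  split_ifs <;> rfl

theorem ind_true {P : Prop} (h : P) : ind P = 1 := by simp [ind, h]

theorem ind_false {P : Prop} (h : ¬ P) : ind P = 0 := by simp [ind, h]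

/-- leave `[-a, a]` but not `[-b, b]` -/
noncomputable def excw (p : ℤ → ℝ≥0∞) (m a b : ℕ) (x y : ℤ) : ℝ≥0∞ :=
  EX p m x fun w => ind ((∀ v ∈ w, |v| ≤ (b : ℤ)) ∧ ¬ ∀ v ∈ w, |v| ≤ (a : ℤ)) *
    p (y - w.getLastD x)

theorem win_eq (p : ℤ → ℝ≥0∞) (m a : ℕ) (x y : ℤ) :
    win p m a x y = EX p m x fun w => ind (∀ v ∈ w, |v| ≤ (a : ℤ)) * p (y - w.getLastD x) := by
  unfold win
  refine EX_congr' _ _ _ _ _ fun l _ => ?_
  rw [ite_ind]

theorem win_split (p : ℤ → ℝ≥0∞) (m a b : ℕ) (hab : a ≤ b) (x y : ℤ) :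
    win p m b x y = win p m a x y + excw p m a b x y := by
  rw [win_eq, win_eq]
  unfold excw
  rw [← EX_add_fun]
  refine EX_congr' _ _ _ _ _ fun w _ => ?_
  rw [← add_mul]
  congr 1
  by_cases h1 : ∀ v ∈ w, |v| ≤ (a : ℤ)
  · have h2 : ∀ v ∈ w, |v| ≤ (b : ℤ) := fun v hv => (h1 v hv).trans (by exact_mod_cast hab)
    rw [ind_true h1, ind_true h2, ind_false (by tauto)]
    simp
  · by_cases h2 : ∀ v ∈ w, |v| ≤ (b : ℤ)
    · rw [ind_false h1, ind_true h2, ind_true (by tauto)]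
      simp
    · rw [ind_false h1, ind_false h2, ind_false (by tauto)]
      simp

theorem EX3 (p : ℤ → ℝ≥0∞) (k1 m k3 : ℕ) (x : ℤ) (F : List ℤ → ℝ≥0∞) :
    EX p (k1 + (m + (k3 + 1))) x F = EX p k1 x (fun l1 => EX p m (l1.getLastD x) (fun w =>
      ∑' y : ℤ, p (y - w.getLastD (l1.getLastD x)) *
        EX p k3 y (fun l3 => F (l1 ++ (w ++ (y :: l3)))))) := by
  rw [EX_split]
  refine EX_congr' _ _ _ _ _ fun l1 _ => ?_
  rw [EX_split]
  refine EX_congr' _ _ _ _ _ fun w _ => ?_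
  rw [EX_succ]

theorem EX_prod (p : ℤ → ℝ≥0∞) (m k3 : ℕ) (x : ℤ) (ι : List ℤ → ℝ≥0∞)
    (Φ : ℤ → List ℤ → ℝ≥0∞) :
    EX p m x (fun w => ∑' y : ℤ, p (y - w.getLastD x) * EX p k3 y (fun l3 => ι w * Φ y l3)) =
      ∑' y : ℤ, EX p m x (fun w => ι w * p (y - w.getLastD x)) * EX p k3 y (Φ y) := by
  rw [EX_tsum]
  refine tsum_congr fun y => ?_
  rw [mul_comm, ← EX_const_mul]
  refine EX_congr' _ _ _ _ _ fun w _ => ?_
  rw [EX_const_mul]
  ring

/-- the exponential of minus `ν` times the expected number -/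
noncomputable def Ee (ν : ℝ≥0) (Q : ℝ≥0∞) : ℝ≥0∞ := ENNReal.ofReal (Real.exp (-(ν * Q.toReal)))

theorem Ee_anti (ν : ℝ≥0) {Q Q' : ℝ≥0∞} (h : Q ≤ Q') (hf : Q' < ∞) : Ee ν Q' ≤ Ee ν Q := by
  unfold Ee
  apply ENNReal.ofReal_le_ofReal
  apply Real.exp_le_exp.mpr
  have := ENNReal.toReal_mono hf.ne h
  have h2 : (ν : ℝ) * Q.toReal ≤ ν * Q'.toReal := by gcongr
  linarith

theorem Ee_add (ν : ℝ≥0) {Q Q' : ℝ≥0∞} {δ : ℝ} (hδ : 0 ≤ δ) (h : Q' ≤ Q + ENNReal.ofReal δ)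
    (hf : Q < ∞) : ENNReal.ofReal (Real.exp (-(ν * δ))) * Ee ν Q ≤ Ee ν Q' := by
  unfold Ee
  rw [← ENNReal.ofReal_mul (Real.exp_pos _).le, ← Real.exp_add]
  apply ENNReal.ofReal_le_ofReal
  apply Real.exp_le_exp.mpr
  have h1 : Q'.toReal ≤ Q.toReal + δ := by
    have h2 := ENNReal.toReal_mono (by simp [hf.ne]) h
    rwa [ENNReal.toReal_add hf.ne ENNReal.ofReal_ne_top, ENNReal.toReal_ofReal hδ] at h2
  have h2 : (ν : ℝ) * Q'.toReal ≤ ν * (Q.toReal + δ) := by gcongr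
  linarith

/-- the event that the path leaves `[-R, R]` in the window but not outside -/
def Bj (R k1 m : ℕ) (l : List ℤ) : Prop :=
  (∃ v ∈ (l.drop k1).take m, (R : ℤ) < |v|) ∧ (∀ v ∈ l.take k1, |v| ≤ (R : ℤ)) ∧
    ∀ v ∈ l.drop (k1 + m), |v| ≤ (R : ℤ)

theorem Bj_append {R k1 m : ℕ} {l1 w l' : List ℤ} (h1 : l1.length = k1) (h2 : w.length = m)
    (hw : ¬ ∀ v ∈ w, |v| ≤ (R : ℤ)) (hl1 : ∀ v ∈ l1, |v| ≤ (R : ℤ))
    (hl' : ∀ v ∈ l', |v| ≤ (R : ℤ)) : Bj R k1 m (l1 ++ (w ++ l')) := by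
  subst h1 h2
  refine ⟨?_, ?_, ?_⟩
  · rw [List.drop_left, List.take_left]
    push Not at hw
    exact hw
  · rw [List.take_left]
    exact hl1
  · rw [← List.append_assoc, ← List.length_append, List.drop_left]
    exact hl'

theorem getLastD_le {R : ℕ} {l : List ℤ} (h : ∀ v ∈ l, |v| ≤ (R : ℤ)) : |l.getLastD 0| ≤ (R : ℤ) := by
  rcases List.eq_nil_or_concat l with rfl | ⟨l', a, rfl⟩
  · simp
  · have : (l'.concat a).getLastD 0 = a := by simp
    rw [this]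
    exact h a (by simp)

theorem EX_zero_fun (p : ℤ → ℝ≥0∞) (n : ℕ) (x : ℤ) : EX p n x (fun _ => 0) = 0 := by
  have := EX_const_mul p n x 0 (fun _ => 0)
  simpa using this

theorem window_step (p q : ℤ → ℝ≥0∞) (hp : ∑' k, p k ≤ 1) (ν : ℝ≥0) (R K J k1 m k3 : ℕ) (hK : 1 ≤ K)
    (c : ℝ≥0) (δ : ℝ) (hδ : 0 ≤ δ)
    (hB : ∀ x y : ℤ, |x| ≤ R → |y| ≤ R → win p m R x y * (1 + c) ≤ win p m (K * R) x y)
    (hQf : ∀ l, Qh q l < ∞)
    (hQo : ∀ l w r : List ℤ, Qo q l w.length r ≤ Qh q (l ++ w ++ r))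
    (hW : ∀ l1 w : List ℤ, ∀ y : ℤ, ∀ l3 : List ℤ, l1.length = k1 → w.length = m →
      l3.length = k3 → good J (0 :: l1) → good J (y :: l3) → (∀ v ∈ l1, |v| ≤ (R : ℤ)) →
      |y| ≤ (R : ℤ) → (∀ v ∈ l3, |v| ≤ (R : ℤ)) → (∀ v ∈ w, |v| ≤ ((K * R : ℕ) : ℤ)) →
      Qh q ((0 :: l1) ++ w ++ (y :: l3)) ≤ Qo q (0 :: l1) w.length (y :: l3) + ENNReal.ofReal δ) :
    ENNReal.ofReal (c * Real.exp (-(ν * δ))) *
      EX p (k1 + (m + (k3 + 1))) 0 (fun l =>
        ind ((∀ v ∈ l, |v| ≤ (R : ℤ)) ∧ good J (0 :: l)) * surv ν q (0 :: l)) ≤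
    EX p (k1 + (m + (k3 + 1))) 0 (fun l => ind (Bj R k1 m l) * surv ν q (0 :: l)) := by
  -- the outside weight
  set Φ : List ℤ → ℤ → List ℤ → ℝ≥0∞ := fun l1 y l3 =>
    ind ((∀ v ∈ l1, |v| ≤ (R : ℤ)) ∧ |y| ≤ (R : ℤ) ∧ (∀ v ∈ l3, |v| ≤ (R : ℤ)) ∧
      good J (0 :: l1) ∧ good J (y :: l3)) * Ee ν (Qo q (0 :: l1) m (y :: l3)) with hΦ
  have hQof : ∀ (l : List ℤ) (m : ℕ) (r : List ℤ), Qo q l m r < ∞ := by
    intro l m r
    have := hQo l (List.replicate m 0) r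
    rw [List.length_replicate] at this
    exact lt_of_le_of_lt this (hQf _)
  -- upper bound
  have hup : EX p (k1 + (m + (k3 + 1))) 0 (fun l =>
        ind ((∀ v ∈ l, |v| ≤ (R : ℤ)) ∧ good J (0 :: l)) * surv ν q (0 :: l)) ≤
      EX p k1 0 (fun l1 => ∑' y : ℤ, win p m R (l1.getLastD 0) y * EX p k3 y (Φ l1 y)) := by
    rw [EX3]
    refine EX_mono' _ _ _ _ _ fun l1 hl1 => ?_
    simp only [win_eq]
    rw [← EX_prod]
    refine EX_mono' _ _ _ _ _ fun w hw => ?_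
    refine ENNReal.tsum_le_tsum fun y => ?_
    gcongr
    refine EX_mono' _ _ _ _ _ fun l3 hl3 => ?_
    by_cases hc : (∀ v ∈ l1 ++ (w ++ y :: l3), |v| ≤ (R : ℤ)) ∧
        good J (0 :: (l1 ++ (w ++ y :: l3)))
    · obtain ⟨hc1, hc2⟩ := hc
      have g1 : good J (0 :: l1) := by
        have : good J ((0 :: l1) ++ (w ++ y :: l3)) := hc2
        exact good_append_left this
      have g2 : good J (y :: l3) := by
        have : good J ((0 :: (l1 ++ w)) ++ (y :: l3)) := by simpa using hc2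
        exact good_append_right this
      rw [ind_true ⟨hc1, hc2⟩, ind_true (fun v hv => hc1 v (by simp [hv])), hΦ]
      simp only
      rw [ind_true ⟨fun v hv => hc1 v (by simp [hv]), hc1 y (by simp),
        fun v hv => hc1 v (by simp [hv]), g1, g2⟩, one_mul, one_mul, one_mul]
      have e := hQo (0 :: l1) w (y :: l3)
      rw [hw] at e
      have e2 : (0 :: l1) ++ w ++ (y :: l3) = 0 :: (l1 ++ (w ++ y :: l3)) := by simp
      rw [e2] at e
      exact Ee_anti ν e (hQf _)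
    · rw [ind_false hc]
      simp
  -- lower bound
  have hlow : ENNReal.ofReal (Real.exp (-(ν * δ))) *
      EX p k1 0 (fun l1 => ∑' y : ℤ, excw p m R (K * R) (l1.getLastD 0) y *
        EX p k3 y (Φ l1 y)) ≤
      EX p (k1 + (m + (k3 + 1))) 0 (fun l => ind (Bj R k1 m l) * surv ν q (0 :: l)) := by
    rw [EX3, ← EX_const_mul]
    refine EX_mono' _ _ _ _ _ fun l1 hl1 => ?_
    unfold excw
    rw [← EX_prod, ← EX_const_mul]
    refine EX_mono' _ _ _ _ _ fun w hw => ?_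
    rw [← ENNReal.tsum_mul_left]
    refine ENNReal.tsum_le_tsum fun y => ?_
    rw [mul_left_comm]
    gcongr
    rw [← EX_const_mul]
    refine EX_mono' _ _ _ _ _ fun l3 hl3 => ?_
    by_cases hc : (∀ v ∈ w, |v| ≤ ((K * R : ℕ) : ℤ)) ∧ ¬ ∀ v ∈ w, |v| ≤ (R : ℤ)
    · by_cases hd : (∀ v ∈ l1, |v| ≤ (R : ℤ)) ∧ |y| ≤ (R : ℤ) ∧ (∀ v ∈ l3, |v| ≤ (R : ℤ)) ∧
        good J (0 :: l1) ∧ good J (y :: l3)
      · rw [ind_true hc, hΦ]
        simp only
        obtain ⟨d1, d2, d3, d4, d5⟩ := hd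
        have hB' : Bj R k1 m (l1 ++ (w ++ y :: l3)) := by
          refine Bj_append hl1 hw hc.2 d1 ?_
          intro v hv
          rcases List.mem_cons.mp hv with rfl | hv
          · exact d2
          · exact d3 v hv
        rw [ind_true ⟨d1, d2, d3, d4, d5⟩, ind_true hB', one_mul, one_mul, one_mul]
        have e := hW l1 w y l3 hl1 hw hl3 d4 d5 d1 d2 d3 hc.1
        rw [hw] at e
        have e2 : (0 :: l1) ++ w ++ (y :: l3) = 0 :: (l1 ++ (w ++ y :: l3)) := by simp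
        rw [e2] at e
        exact Ee_add ν hδ e (hQof _ _ _)
      · rw [hΦ]
        simp only
        rw [ind_false hd]
        simp
    · rw [ind_false hc]
      simp
  -- comparison
  have hcmp : ∀ l1 : List ℤ, ∀ y : ℤ,
      (c : ℝ≥0∞) * (win p m R (l1.getLastD 0) y * EX p k3 y (Φ l1 y)) ≤
        excw p m R (K * R) (l1.getLastD 0) y * EX p k3 y (Φ l1 y) := by
    intro l1 y
    by_cases hc : (∀ v ∈ l1, |v| ≤ (R : ℤ)) ∧ |y| ≤ (R : ℤ)
    · have h1 := hB (l1.getLastD 0) y (getLastD_le hc.1) hc.2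
      rw [win_split p m R (K * R) (Nat.le_mul_of_pos_left R hK)] at h1
      have hfin : win p m R (l1.getLastD 0) y ≤ 1 := by
        rw [win_eq]
        refine EX_le p hp 1 _ _ _ fun l _ => ?_
        calc ind (∀ v ∈ l, |v| ≤ (R : ℤ)) * p (y - l.getLastD (l1.getLastD 0)) ≤ 1 * 1 := by
              gcongr
              · unfold ind; split_ifs <;> simp
              · exact (ENNReal.le_tsum _).trans hp
          _ = 1 := one_mul 1
      have h2 : (c : ℝ≥0∞) * win p m R (l1.getLastD 0) y ≤ excw p m R (K * R) (l1.getLastD 0) y := by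
        rw [mul_add, mul_one] at h1
        have h3 := (ENNReal.add_le_add_iff_left (ne_top_of_le_ne_top ENNReal.one_ne_top hfin)).mp h1
        rwa [mul_comm]
      rw [← mul_assoc]
      gcongr
    · have h0 : EX p k3 y (Φ l1 y) = 0 := by
        rw [← EX_zero_fun p k3 y]
        refine EX_congr' _ _ _ _ _ fun l3 _ => ?_
        rw [hΦ]
        simp only
        rw [ind_false (by tauto), zero_mul]
      rw [h0]
      simp
  rw [ENNReal.ofReal_mul (NNReal.coe_nonneg c), ENNReal.ofReal_coe_nnreal, mul_comm (c : ℝ≥0∞),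
    mul_assoc]
  refine le_trans ?_ hlow
  gcongr
  rw [← EX_const_mul]
  refine (?_ : _ ≤ EX p k1 0 (fun l1 => (c : ℝ≥0∞) * ∑' y : ℤ, win p m R (l1.getLastD 0) y *
    EX p k3 y (Φ l1 y))).trans ?_
  · rw [EX_const_mul, EX_const_mul]
    gcongr
  · refine EX_mono' _ _ _ _ _ fun l1 _ => ?_
    rw [← ENNReal.tsum_mul_left]
    exact ENNReal.tsum_le_tsum fun y => hcmp l1 y

end Pool.Agent.H143R3.MT
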