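import Pool.Agent.H143R3.MT.D1

namespace Pool.Agent.H143R3.MT

open MeasureTheory ProbabilityTheory Filter Topology
open scoped ENNReal NNReal

theorem mem_drop_of_le {l : List ℤ} {a b : ℕ} (hab : a ≤ b) {v : ℤ} (h : v ∈ l.drop b) :
    v ∈ l.drop a := by
  obtain ⟨d, rfl⟩ := Nat.exists_eq_add_of_le hab
  rw [← List.drop_drop] at h
  exact List.mem_of_mem_drop h

theorem Bj_excl {R m j j' : ℕ} {l : List ℤ} (hjj : j < j') (h1 : Bj R (j * (m + 1)) m l)
    (h2 : Bj R (j' * (m + 1)) m l) : False := by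
  obtain ⟨v, hv, hv2⟩ := h2.1
  have h3 := List.mem_of_mem_take hv
  have h4 : j * (m + 1) + m ≤ j' * (m + 1) := by
    have : (j + 1) * (m + 1) ≤ j' * (m + 1) := Nat.mul_le_mul_right _ hjj
    calc j * (m + 1) + m ≤ (j + 1) * (m + 1) := by ring_nf; omega
      _ ≤ _ := this
  have h5 := h1.2.2 v (mem_drop_of_le h4 h3)
  omega

theorem sum_ind_le {R m : ℕ} (s : Finset ℕ) (l : List ℤ) :
    ∑ j ∈ s, ind (Bj R (j * (m + 1)) m l) ≤ 1 := by
  classical
  by_cases h : ∃ j ∈ s, Bj R (j * (m + 1)) m l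
  · obtain ⟨j, hj, hB⟩ := h
    rw [Finset.sum_eq_single j]
    · rw [ind_true hB]
    · intro j' hj' hne
      apply ind_false
      intro hB'
      rcases lt_or_gt_of_ne hne with h | h
      · exact Bj_excl h hB' hB
      · exact Bj_excl h hB hB'
    · intro h; exact absurd hj h
  · push Not at h
    rw [Finset.sum_eq_zero fun j hj => ind_false (h j hj)]
    exact zero_le_one

theorem taskD : TaskD := by
  intro hA1 hB hS hWn κ ρ ν hκ hρ
  obtain ⟨K, hK, c, hc, R0b, hR0b, HB⟩ := hB κ hκ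
  obtain ⟨C, R0w, hR0w, HW⟩ := hWn ρ hρ K hK
  refine ⟨ν * C, Real.toNNReal (4 * Real.exp ν / c), max R0b R0w, le_max_of_le_left hR0b, ?_⟩
  intro R hR t ht
  have hRb : R0b ≤ R := (le_max_left _ _).trans hR
  have hRw : R0w ≤ R := (le_max_right _ _).trans hR
  have hR1 : 1 ≤ R := hR0b.trans hRb
  have hRpos : (0 : ℝ≥0) < (R : ℝ≥0) := by exact_mod_cast hR1
  have hR2 : (0 : ℝ≥0) < (R : ℝ≥0) ^ 2 := by positivity
  have htpos : 0 < t := lt_of_lt_of_le (by positivity) ht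
  set M : ℕ := ⌊t / (R : ℝ≥0) ^ 2⌋₊ with hM
  have hM16 : 16 ≤ M := by
    apply Nat.le_floor
    rw [le_div_iff₀ hR2]
    exact_mod_cast ht
  have hMpos : 0 < M := by omega
  have hMpos' : (0 : ℝ≥0) < M := by exact_mod_cast hMpos
  have hMle : (M : ℝ≥0) * (R : ℝ≥0) ^ 2 ≤ t := by
    rw [← le_div_iff₀ hR2]
    exact Nat.floor_le (by positivity)
  have hMlt : t ≤ 2 * M * (R : ℝ≥0) ^ 2 := by
    have h1 : t / (R : ℝ≥0) ^ 2 < M + 1 := Nat.lt_floor_add_one _
    rw [div_lt_iff₀ hR2] at h1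
    refine h1.le.trans ?_
    gcongr
    have : (1 : ℝ≥0) ≤ M := by exact_mod_cast hMpos
    calc (M : ℝ≥0) + 1 ≤ M + M := by gcongr
      _ = 2 * M := by ring
  refine ⟨M, hMpos, ?_⟩
  intro J
  obtain ⟨h0, hh0, HW'⟩ := HW R hRw t ht J
  obtain ⟨k0, hk0⟩ := pow_unbounded_of_one_lt (t / h0) (one_lt_two : (1 : ℝ≥0) < 2)
  filter_upwards [eventually_ge_atTop (max k0 1)] with k hk
  have hkk0 : k0 ≤ k := (le_max_left _ _).trans hk
  have hk1 : 1 ≤ k := (le_max_right _ _).trans hk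
  set N : ℝ≥0 := ((M * 2 ^ k : ℕ) : ℝ≥0) with hN
  have hNpos : 0 < N := by rw [hN]; exact_mod_cast Nat.mul_pos hMpos (by positivity)
  set h : ℝ≥0 := t / N with hh
  have hhpos : 0 < h := div_pos htpos hNpos
  have hNh : N * h = t := mul_div_cancel₀ t hNpos.ne'
  have hhh0 : h ≤ h0 := by
    rw [hh, div_le_iff₀ hNpos]
    rw [div_lt_iff₀ hh0] at hk0
    refine hk0.le.trans ?_
    rw [mul_comm]
    gcongr
    rw [hN]
    push_cast
    calc (2 : ℝ≥0) ^ k0 ≤ 2 ^ k := pow_le_pow_right₀ (by norm_num) hkk0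
      _ ≤ M * 2 ^ k := le_mul_of_one_le_left (by positivity) (by exact_mod_cast hMpos)
  obtain ⟨m, hm⟩ : ∃ m : ℕ, 2 ^ k = m + 1 := ⟨2 ^ k - 1, (Nat.sub_add_cancel Nat.one_le_two_pow).symm⟩
  have hmh : ((m + 1 : ℕ) : ℝ≥0) * h = t / M := by
    rw [← hm, hh, hN]
    push_cast
    field_simp
  -- the bridge bound
  have hBr : ∀ x y : ℤ, |x| ≤ R → |y| ≤ R →
      win (sk (κ * h)) m R x y * (1 + c) ≤ win (sk (κ * h)) m (K * R) x y := by
    intro x y hx hy
    have h1 : (R : ℝ≥0) ^ 2 ≤ t / M := by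
      rw [le_div_iff₀ hMpos', mul_comm]; exact hMle
    have h2 : t / M ≤ 2 * (R : ℝ≥0) ^ 2 := by
      rw [div_le_iff₀ hMpos']
      calc t ≤ 2 * M * (R : ℝ≥0) ^ 2 := hMlt
        _ = 2 * (R : ℝ≥0) ^ 2 * M := by ring
    obtain ⟨k', rfl⟩ : ∃ k', k = k' + 1 := ⟨k - 1, by omega⟩
    have h3 := HB R hRb (t / M) h1 h2 (2 ^ k') Nat.one_le_two_pow x y hx hy
    have e1 : 2 * 2 ^ k' = m + 1 := by rw [← hm]; ring
    have e2 : κ * (t / M / ((2 * 2 ^ k' : ℕ) : ℝ≥0)) = κ * h := by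
      rw [e1, ← hmh]
      congr 1
      field_simp
    rw [e2, e1] at h3
    exact h3
  have hsum1 : ∑' k, sk (κ * h) k ≤ 1 := (hA1.2.2.1 _).le
  set δ : ℝ := C * (R : ℝ) ^ 3 / t + 1 with hδ
  have hδ0 : 0 ≤ δ := by positivity
  -- one window
  have hstep : ∀ j : ℕ, M / 8 + 1 ≤ j → j + 1 + (M / 8 + 1) ≤ M →
      ENNReal.ofReal (c * Real.exp (-(ν * δ))) *
      EX (sk (κ * h)) (M * 2 ^ k) 0 (fun l =>
        ind ((∀ v ∈ l, |v| ≤ (R : ℤ)) ∧ good J (0 :: l)) * surv ν (sk (ρ * h)) (0 :: l)) ≤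
      EX (sk (κ * h)) (M * 2 ^ k) 0 (fun l =>
        ind (Bj R (j * (m + 1)) m l) * surv ν (sk (ρ * h)) (0 :: l)) := by
    intro j hj1 hj2
    obtain ⟨r, hr⟩ : ∃ r, M = j + 1 + r := ⟨M - (j + 1), by omega⟩
    have hr2 : M / 8 + 1 ≤ r := by omega
    have en : M * 2 ^ k = j * (m + 1) + (m + (r * (m + 1) + 1)) := by
      rw [hm, hr]; ring
    have hNm : N = ((M * (m + 1) : ℕ) : ℝ≥0) := by rw [hN, hm]
    rw [en]
    refine window_step _ _ hsum1 ν R K J _ _ _ hK c δ hδ0 hBr (fun l => ?_) (fun l w r => ?_) ?_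
    · have := (hS (ρ * h) l [] []).2
      simpa using this
    · rw [(hS (ρ * h) l w r).1]
      exact le_self_add
    · intro l1 w y l3 hl1 hw hl3 hg1 hg3 hb1 hby hb3 hbw
      rw [(hS (ρ * h) (0 :: l1) w (y :: l3)).1]
      gcongr
      refine HW' h hhpos hhh0 _ _ _ hg1 hg3 ?_ ?_ hbw ?_ ?_ ?_ ?_ ?_
      · intro v hv
        rcases List.mem_cons.mp hv with rfl | hv
        · simp
        · exact hb1 v hv
      · intro v hv
        rcases List.mem_cons.mp hv with rfl | hv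
        · exact hby
        · exact hb3 v hv
      · rw [← hNh, mul_div_right_comm, List.length_cons, hl1]
        gcongr
        rw [div_le_iff₀ (by norm_num), hNm]
        norm_cast
        calc M * (m + 1) ≤ (8 * j) * (m + 1) := by
              apply Nat.mul_le_mul_right; omega
          _ ≤ (j * (m + 1) + 1) * 8 := by ring_nf; omega
      · rw [← hNh, mul_div_right_comm, List.length_cons, hl3]
        gcongr
        rw [div_le_iff₀ (by norm_num), hNm]
        norm_cast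
        calc M * (m + 1) ≤ (8 * r) * (m + 1) := by
              apply Nat.mul_le_mul_right; omega
          _ ≤ (r * (m + 1) + 1) * 8 := by ring_nf; omega
      · rw [← hNh, List.length_cons, hl1, ← mul_assoc]
        gcongr
        rw [hNm]
        norm_cast
        have : j * (m + 1) + 1 ≤ M * (m + 1) := by
          rw [hr]
          have : (j + 1 + r) * (m + 1) = j * (m + 1) + 1 + (m + r * (m + 1)) := by ring
          omega
        omega
      · rw [← hNh, List.length_cons, hl3, ← mul_assoc]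
        gcongr
        rw [hNm]
        norm_cast
        have : r * (m + 1) + 1 ≤ M * (m + 1) := by
          rw [hr]
          have : (j + 1 + r) * (m + 1) = r * (m + 1) + 1 + (m + j * (m + 1)) := by ring
          omega
        omega
      · rw [hw]
        calc (m : ℝ≥0) * h ≤ ((m + 1 : ℕ) : ℝ≥0) * h := by gcongr; omega
          _ = t / M := hmh
          _ ≤ 2 * (R : ℝ≥0) ^ 2 := by
            rw [div_le_iff₀ hMpos']
            calc t ≤ 2 * M * (R : ℝ≥0) ^ 2 := hMlt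
              _ = 2 * (R : ℝ≥0) ^ 2 * M := by ring
  -- sum over the windows
  simp only [ite_ind]
  set EA := EX (sk (κ * h)) (M * 2 ^ k) 0 (fun l =>
        ind ((∀ v ∈ l, |v| ≤ (R : ℤ)) ∧ good J (0 :: l)) * surv ν (sk (ρ * h)) (0 :: l)) with hEA
  set ES := EX (sk (κ * h)) (M * 2 ^ k) 0 (fun l => surv ν (sk (ρ * h)) (0 :: l)) with hES
  set s : Finset ℕ := Finset.Ico (M / 8 + 1) (M - (M / 8 + 1)) with hs
  have hcard : M ≤ 2 * s.card := by
    rw [hs, Nat.card_Ico]; omega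
  have hsumle : ∑ j ∈ s, ENNReal.ofReal (c * Real.exp (-(ν * δ))) * EA ≤ ES := by
    calc ∑ j ∈ s, ENNReal.ofReal (c * Real.exp (-(ν * δ))) * EA
        ≤ ∑ j ∈ s, EX (sk (κ * h)) (M * 2 ^ k) 0 (fun l =>
          ind (Bj R (j * (m + 1)) m l) * surv ν (sk (ρ * h)) (0 :: l)) := by
          refine Finset.sum_le_sum fun j hj => ?_
          rw [hs, Finset.mem_Ico] at hj
          exact hstep j hj.1 (by omega)
      _ = EX (sk (κ * h)) (M * 2 ^ k) 0 (fun l => ∑ j ∈ s,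
          ind (Bj R (j * (m + 1)) m l) * surv ν (sk (ρ * h)) (0 :: l)) := by
          rw [EX_sum]
      _ ≤ ES := by
          refine EX_mono' _ _ _ _ _ fun l _ => ?_
          rw [← Finset.sum_mul]
          calc _ ≤ 1 * surv ν (sk (ρ * h)) (0 :: l) := by
                gcongr
                exact sum_ind_le s l
            _ = _ := one_mul _
  rw [Finset.sum_const, nsmul_eq_mul] at hsumle
  -- conclusion
  have hcR : (0 : ℝ) < c := by exact_mod_cast hc
  have htR : (0 : ℝ) < t := by exact_mod_cast htpos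
  have hRR : (0 : ℝ) < R := by exact_mod_cast hR1
  set x : ℝ := (t / (4 * (R : ℝ) ^ 2)) * (c * Real.exp (-(ν * δ))) with hx
  have hxpos : 0 < x := by positivity
  have hxle : ENNReal.ofReal x * EA ≤ ES := by
    refine le_trans ?_ hsumle
    rw [← mul_assoc, hx, ENNReal.ofReal_mul (by positivity)]
    gcongr
    have h1 : (t : ℝ) / (4 * (R : ℝ) ^ 2) ≤ s.card := by
      rw [div_le_iff₀ (by positivity)]
      have h2 : (t : ℝ) ≤ 2 * M * (R : ℝ) ^ 2 := by exact_mod_cast hMlt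
      have h3 : (M : ℝ) ≤ 2 * s.card := by exact_mod_cast hcard
      calc (t : ℝ) ≤ 2 * M * (R : ℝ) ^ 2 := h2
        _ ≤ 2 * (2 * s.card) * (R : ℝ) ^ 2 := by gcongr
        _ = s.card * (4 * (R : ℝ) ^ 2) := by ring
    calc ENNReal.ofReal ((t : ℝ) / (4 * (R : ℝ) ^ 2)) ≤ ENNReal.ofReal (s.card : ℝ) :=
          ENNReal.ofReal_le_ofReal h1
      _ = (s.card : ℝ≥0∞) := ENNReal.ofReal_natCast _
  have hinv : ENNReal.ofReal (x⁻¹) * ENNReal.ofReal x = 1 := by
    rw [← ENNReal.ofReal_mul (by positivity), inv_mul_cancel₀ hxpos.ne', ENNReal.ofReal_one]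
  calc EA = ENNReal.ofReal (x⁻¹) * (ENNReal.ofReal x * EA) := by
        rw [← mul_assoc, hinv, one_mul]
    _ ≤ ENNReal.ofReal (x⁻¹) * ES := by gcongr
    _ = _ := by
        congr 2
        rw [Real.coe_toNNReal _ (by positivity), hx, hδ]
        rw [show -((ν : ℝ) * (C * (R : ℝ) ^ 3 / t + 1)) = -(ν * C * (R : ℝ) ^ 3 / t + ν) by ring,
          Real.exp_neg, Real.exp_add]
        push_cast
        field_simp

end Pool.Agent.H143R3.MT
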