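import Pool.Agent.H143R3.MT.Stmts

namespace Pool.Agent.H143R3.MT

open MeasureTheory ProbabilityTheory Filter Topology
open scoped ENNReal NNReal

theorem EX_zero (p : ℤ → ℝ≥0∞) (x : ℤ) (f : List ℤ → ℝ≥0∞) : EX p 0 x f = f [] := rfl

theorem EX_succ (p : ℤ → ℝ≥0∞) (n : ℕ) (x : ℤ) (f : List ℤ → ℝ≥0∞) :
    EX p (n + 1) x f = ∑' x' : ℤ, p (x' - x) * EX p n x' (fun l => f (x' :: l)) := rfl

theorem EX_mono' (p : ℤ → ℝ≥0∞) : ∀ (n : ℕ) (x : ℤ) (f g : List ℤ → ℝ≥0∞),
    (∀ l, l.length = n → f l ≤ g l) → EX p n x f ≤ EX p n x g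
  | 0, x, f, g, h => h [] rfl
  | n + 1, x, f, g, h => by
      rw [EX_succ, EX_succ]
      refine ENNReal.tsum_le_tsum fun x' => ?_
      gcongr
      exact EX_mono' p n x' _ _ fun l hl => h _ (by simp [hl])

theorem EX_congr' (p : ℤ → ℝ≥0∞) (n : ℕ) (x : ℤ) (f g : List ℤ → ℝ≥0∞)
    (h : ∀ l, l.length = n → f l = g l) : EX p n x f = EX p n x g :=
  le_antisymm (EX_mono' p n x f g fun l hl => (h l hl).le)
    (EX_mono' p n x g f fun l hl => (h l hl).ge)

theorem EX_const_mul (p : ℤ → ℝ≥0∞) : ∀ (n : ℕ) (x : ℤ) (c : ℝ≥0∞) (f : List ℤ → ℝ≥0∞),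
    EX p n x (fun l => c * f l) = c * EX p n x f
  | 0, x, c, f => rfl
  | n + 1, x, c, f => by
      rw [EX_succ, EX_succ, ← ENNReal.tsum_mul_left]
      refine tsum_congr fun x' => ?_
      rw [EX_const_mul p n x' c (fun l => f (x' :: l))]
      ring

theorem EX_add_fun (p : ℤ → ℝ≥0∞) : ∀ (n : ℕ) (x : ℤ) (f g : List ℤ → ℝ≥0∞),
    EX p n x (fun l => f l + g l) = EX p n x f + EX p n x g
  | 0, x, f, g => rfl
  | n + 1, x, f, g => by
      rw [EX_succ, EX_succ, EX_succ, ← ENNReal.tsum_add]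
      refine tsum_congr fun x' => ?_
      rw [EX_add_fun p n x' (fun l => f (x' :: l)) (fun l => g (x' :: l)), mul_add]

theorem EX_tsum {ι : Type*} (p : ℤ → ℝ≥0∞) : ∀ (n : ℕ) (x : ℤ) (g : ι → List ℤ → ℝ≥0∞),
    EX p n x (fun l => ∑' i, g i l) = ∑' i, EX p n x (g i)
  | 0, x, g => rfl
  | n + 1, x, g => by
      rw [EX_succ]
      simp only [EX_succ]
      rw [ENNReal.tsum_comm]
      refine tsum_congr fun x' => ?_
      rw [EX_tsum p n x' (fun i l => g i (x' :: l)), ENNReal.tsum_mul_left]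

theorem EX_sum {ι : Type*} (s : Finset ι) (p : ℤ → ℝ≥0∞) (n : ℕ) (x : ℤ)
    (g : ι → List ℤ → ℝ≥0∞) :
    EX p n x (fun l => ∑ i ∈ s, g i l) = ∑ i ∈ s, EX p n x (g i) := by
  classical
  induction s using Finset.induction_on with
  | empty =>
      simp only [Finset.sum_empty]
      have := EX_const_mul p n x 0 (fun _ => 0)
      simpa using this
  | insert a s ha ih =>
      simp only [Finset.sum_insert ha]
      rw [EX_add_fun, ih]

theorem getLastD_cons (x y : ℤ) (l : List ℤ) : (y :: l).getLastD x = l.getLastD y := by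
  cases l <;> rfl

theorem EX_split (p : ℤ → ℝ≥0∞) : ∀ (a b : ℕ) (x : ℤ) (f : List ℤ → ℝ≥0∞),
    EX p (a + b) x f =
      EX p a x (fun l1 => EX p b (l1.getLastD x) (fun l2 => f (l1 ++ l2)))
  | 0, b, x, f => by simp [EX_zero]
  | a + 1, b, x, f => by
      have e : a + 1 + b = (a + b) + 1 := by ring
      rw [e, EX_succ, EX_succ]
      refine tsum_congr fun x' => ?_
      rw [EX_split p a b x' (fun l => f (x' :: l))]
      simp only [getLastD_cons, List.cons_append]

theorem tsum_shift (p : ℤ → ℝ≥0∞) (x : ℤ) : ∑' x' : ℤ, p (x' - x) = ∑' k, p k :=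
  (Equiv.subRight x).tsum_eq p

theorem EX_le (p : ℤ → ℝ≥0∞) (hp : ∑' k, p k ≤ 1) (B : ℝ≥0∞) : ∀ (n : ℕ) (x : ℤ)
    (f : List ℤ → ℝ≥0∞), (∀ l, l.length = n → f l ≤ B) → EX p n x f ≤ B
  | 0, x, f, h => h [] rfl
  | n + 1, x, f, h => by
      rw [EX_succ]
      calc ∑' x' : ℤ, p (x' - x) * EX p n x' (fun l => f (x' :: l))
          ≤ ∑' x' : ℤ, p (x' - x) * B := by
            refine ENNReal.tsum_le_tsum fun x' => ?_
            gcongr
            exact EX_le p hp B n x' _ fun l hl => h _ (by simp [hl])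
        _ = (∑' k, p k) * B := by rw [ENNReal.tsum_mul_right, tsum_shift]
        _ ≤ 1 * B := by gcongr
        _ = B := one_mul B

theorem jumps_append_left : ∀ (a b : List ℤ), jumps a ≤ jumps (a ++ b)
  | [], b => by simp [jumps]
  | [x], b => by simp [jumps]
  | x :: y :: a, b => by
      have := jumps_append_left (y :: a) b
      simp only [jumps, List.cons_append] at this ⊢
      omega

theorem jumps_cons_le (x : ℤ) (l : List ℤ) : jumps l ≤ jumps (x :: l) := by
  cases l with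
  | nil => simp [jumps]
  | cons y l => simp only [jumps]; omega

theorem jumps_append_right : ∀ (a b : List ℤ), jumps b ≤ jumps (a ++ b)
  | [], b => by simp
  | x :: a, b => (jumps_append_right a b).trans (jumps_cons_le x (a ++ b))

theorem good_append_left {J : ℕ} {a b : List ℤ} (h : good J (a ++ b)) : good J a :=
  ⟨h.1.left_of_append, (jumps_append_left a b).trans h.2⟩

theorem good_append_right {J : ℕ} {a b : List ℤ} (h : good J (a ++ b)) : good J b :=
  ⟨h.1.right_of_append, (jumps_append_right a b).trans h.2⟩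

end Pool.Agent.H143R3.MT
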