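import Pool.Agent.H143R3.MT.D1

namespace Pool.Agent.H143R3.MT

open MeasureTheory ProbabilityTheory Filter Topology
open scoped ENNReal NNReal

universe u

theorem taskF : TaskF.{u} := by
  intro hD hE3 hL hG κ ρ ν hκ hρ
  obtain ⟨C₁, C₂, R0, hR0, HD⟩ := hD κ ρ ν hκ hρ
  refine ⟨C₁, C₂, R0, hR0, ?_⟩
  intro R hR t ht Ω _ P _ X N Y hM
  obtain ⟨M, hMpos, HJ⟩ := HD R hR t ht
  set L : ℝ≥0∞ := ENNReal.ofReal (C₂ * ((R : ℝ) ^ 2 / t) * Real.exp (C₁ * (R : ℝ) ^ 3 / t)) with hLdef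
  set a := P ({ω | ∀ s ≤ t, |X s ω| ≤ (R : ℤ)} ∩ alive X N Y t) with ha
  have hR1 : 1 ≤ R := hR0.trans hR
  have htpos : 0 < t := by
    have : (0 : ℝ≥0) < (R : ℝ≥0) := by exact_mod_cast hR1
    exact lt_of_lt_of_le (by positivity) ht
  have key : ∀ J : ℕ, 0 < J → ∀ᶠ k : ℕ in atTop,
      a ≤ L * P (aliveG X N Y (t / ((M * 2 ^ k : ℕ) : ℝ≥0)) (M * 2 ^ k)) +
        ENNReal.ofReal ((κ : ℝ) ^ 2 * t ^ 2 * (2⁻¹ : ℝ) ^ k + κ * t / J) := by
    intro J hJ
    filter_upwards [HJ J] with k hk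
    set n : ℕ := M * 2 ^ k with hn
    have hnpos : 0 < n := Nat.mul_pos hMpos (by positivity)
    have hnR : (0 : ℝ≥0) < (n : ℝ≥0) := by exact_mod_cast hnpos
    set h : ℝ≥0 := t / (n : ℝ≥0) with hh
    have hnh : (n : ℝ≥0) * h = t := mul_div_cancel₀ t hnR.ne'
    have hle : ∀ i : ℕ, i ≤ n → (i : ℝ≥0) * h ≤ t := by
      intro i hi
      rw [← hnh]
      gcongr
    simp only [ite_ind] at hk
    have e1 := hE3 Ω P κ ρ ν X N Y hM h n {l | (∀ v ∈ l, |v| ≤ (R : ℤ)) ∧ good J (0 :: l)}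
    have e2 := hE3 Ω P κ ρ ν X N Y hM h n Set.univ
    simp only [ite_ind, Set.mem_ofPred_eq] at e1
    have e3 : P (aliveG X N Y h n) =
        EX (sk (κ * h)) n 0 fun l => surv ν (sk (ρ * h)) (0 :: l) := by
      have : {ω | gl X h n ω ∈ (Set.univ : Set (List ℤ))} ∩ aliveG X N Y h n = aliveG X N Y h n := by
        simp
      rw [this] at e2
      rw [e2]
      refine EX_congr' _ _ _ _ _ fun l _ => ?_
      simp
    have hsub : {ω | ∀ s ≤ t, |X s ω| ≤ (R : ℤ)} ∩ alive X N Y t ⊆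
        ({ω | (∀ v ∈ gl X h n ω, |v| ≤ (R : ℤ)) ∧ good J (0 :: gl X h n ω)} ∩ aliveG X N Y h n) ∪
          {ω | ¬ good J (0 :: gl X h n ω)} := by
      rintro ω ⟨h1, h2⟩
      by_cases hg : good J (0 :: gl X h n ω)
      · left
        refine ⟨⟨?_, hg⟩, ?_⟩
        · intro v hv
          unfold gl at hv
          rw [List.mem_ofFn] at hv
          obtain ⟨i, rfl⟩ := hv
          exact h1 _ (hle _ i.2)
        · intro i hi y j hj
          exact h2 _ (hle i hi) y j hj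
      · right; exact hg
    calc a ≤ P (({ω | (∀ v ∈ gl X h n ω, |v| ≤ (R : ℤ)) ∧ good J (0 :: gl X h n ω)} ∩
          aliveG X N Y h n) ∪ {ω | ¬ good J (0 :: gl X h n ω)}) := measure_mono hsub
      _ ≤ P ({ω | (∀ v ∈ gl X h n ω, |v| ≤ (R : ℤ)) ∧ good J (0 :: gl X h n ω)} ∩
          aliveG X N Y h n) + P {ω | ¬ good J (0 :: gl X h n ω)} := measure_union_le _ _
      _ ≤ L * P (aliveG X N Y h n) + ENNReal.ofReal ((κ : ℝ) ^ 2 * t ^ 2 * (2⁻¹ : ℝ) ^ k + κ * t / J) := by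
          gcongr
          · rw [e1, e3]
            exact hk
          · refine (hG Ω P κ X hM.walk h n J hJ).trans ?_
            apply ENNReal.ofReal_le_ofReal
            have hnh' : (n : ℝ) * (h : ℝ) = t := by exact_mod_cast hnh
            have e4 : (n : ℝ) * ((κ : ℝ) * h) ^ 2 = κ ^ 2 * t * h := by
              rw [← hnh']; ring
            have e5 : (h : ℝ) ≤ t * (2⁻¹ : ℝ) ^ k := by
              have h6 : (h : ℝ) = t / (M * 2 ^ k) := by
                rw [hh, hn]; push_cast; rfl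
              rw [h6, inv_pow, ← div_eq_mul_inv]
              apply div_le_div_of_nonneg_left (by positivity) (by positivity)
              have : (1 : ℝ) ≤ M := by exact_mod_cast hMpos
              nlinarith [pow_pos (two_pos : (0 : ℝ) < 2) k]
            rw [hnh']
            have e6 : (n : ℝ) * (((κ * h : ℝ≥0)) : ℝ) ^ 2 = κ ^ 2 * t * h := by
              push_cast; exact e4
            have : (κ : ℝ) ^ 2 * t * h ≤ κ ^ 2 * t ^ 2 * (2⁻¹ : ℝ) ^ k := by
              calc (κ : ℝ) ^ 2 * t * h ≤ κ ^ 2 * t * (t * (2⁻¹ : ℝ) ^ k) := by gcongr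
                _ = _ := by ring
            simp only [NNReal.coe_mul] at *
            linarith
  have lim1 : ∀ J : ℕ, 0 < J → a ≤ L * P (alive X N Y t) + ENNReal.ofReal (κ * t / J) := by
    intro J hJ
    refine ge_of_tendsto ?_ (key J hJ)
    refine Tendsto.add ?_ ?_
    · exact ENNReal.Tendsto.const_mul (hL Ω P κ ρ ν X N Y hM t M hMpos)
        (Or.inr ENNReal.ofReal_ne_top)
    · apply ENNReal.tendsto_ofReal
      have h1 : Tendsto (fun k : ℕ => (2⁻¹ : ℝ) ^ k) atTop (𝓝 0) :=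
        tendsto_pow_atTop_nhds_zero_of_lt_one (by norm_num) (by norm_num)
      have h2 := (h1.const_mul ((κ : ℝ) ^ 2 * t ^ 2)).add_const ((κ : ℝ) * t / J)
      simpa using h2
  have hlim : Tendsto (fun J : ℕ => L * P (alive X N Y t) + ENNReal.ofReal (κ * t / J)) atTop
      (𝓝 (L * P (alive X N Y t) + ENNReal.ofReal 0)) := by
    refine Tendsto.add tendsto_const_nhds ?_
    apply ENNReal.tendsto_ofReal
    exact tendsto_const_div_atTop_nhds_zero_nat _
  rw [ENNReal.ofReal_zero, add_zero] at hlim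
  exact ge_of_tendsto hlim ((eventually_gt_atTop 0).mono fun J hJ => lim1 J hJ)

end Pool.Agent.H143R3.MT
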