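import Mathlib

/-!
# Random walk among moving traps in one dimension (MP_e5e566_pr): definitions and task statements

Everything is about hard traps (`γ = ∞`).
-/

namespace Pool.Agent.H143R3.MT

open MeasureTheory ProbabilityTheory Filter Topology
open scoped ENNReal NNReal

universe u

/-! ## The model -/

/-- The law of `N⁺ - N⁻` for independent Poisson variables `N⁺`, `N⁻` of mean `s / 2`: the law at
time `s` of the continuous time simple symmetric random walk on `ℤ` with jump rate `1`. -/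
noncomputable def skellam (s : ℝ≥0) : Measure ℤ :=
  ((poissonMeasure (s / 2)).prod (poissonMeasure (s / 2))).map fun p : ℕ × ℕ => (p.1 : ℤ) - p.2

/-- `X` is a continuous time simple symmetric random walk on `ℤ` with jump rate `κ`, started at
`0`. -/
structure IsWalk {Ω : Type u} [MeasurableSpace Ω] (P : Measure Ω) (κ : ℝ≥0)
    (X : ℝ≥0 → Ω → ℤ) : Prop where
  meas : ∀ t, Measurable (X t)
  zero : ∀ᵐ ω ∂P, X 0 ω = 0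
  rightCont : ∀ᵐ ω ∂P, ∀ t, ∀ᶠ u in 𝓝[≥] t, X u ω = X t ω
  finite : ∀ᵐ ω ∂P, ∀ t, ((fun s => X s ω) '' Set.Iic t).Finite
  indep : HasIndepIncrements X P
  law : ∀ s t, s ≤ t → P.map (fun ω => X t ω - X s ω) = skellam (κ * (t - s))

/-- The walk `X` (jump rate `κ`) and the Poisson system of traps: `N y` traps start at the site
`y` (Poisson of mean `ν`), the `j`-th one is at `y + Y y j s` at time `s` and has jump rate `ρ`;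
everything is independent. -/
structure TrapModel {Ω : Type u} [MeasurableSpace Ω] (P : Measure Ω) (κ ρ ν : ℝ≥0)
    (X : ℝ≥0 → Ω → ℤ) (N : ℤ → Ω → ℕ) (Y : ℤ → ℕ → ℝ≥0 → Ω → ℤ) : Prop where
  walk : IsWalk P κ X
  number_meas : ∀ y, Measurable (N y)
  number : ∀ y, P.map (N y) = poissonMeasure ν
  trap : ∀ y j, IsWalk P ρ (Y y j)
  indepN : iIndepFun N P
  indepY : iIndepFun (fun (i : ℤ × ℕ) (ω : Ω) (s : ℝ≥0) => Y i.1 i.2 s ω) P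
  indepNY : IndepFun (fun (ω : Ω) (y : ℤ) => N y ω)
    (fun (ω : Ω) (i : ℤ × ℕ) (s : ℝ≥0) => Y i.1 i.2 s ω) P
  indepX : IndepFun (fun (ω : Ω) (s : ℝ≥0) => X s ω)
    (fun (ω : Ω) => ((fun (y : ℤ) => N y ω), (fun (i : ℤ × ℕ) (s : ℝ≥0) => Y i.1 i.2 s ω))) P

/-- the walk meets no trap during `[0, t]` -/
def alive {Ω : Type u} (X : ℝ≥0 → Ω → ℤ) (N : ℤ → Ω → ℕ) (Y : ℤ → ℕ → ℝ≥0 → Ω → ℤ) (t : ℝ≥0) :
    Set Ω :=
  {ω | ∀ s ≤ t, ∀ y : ℤ, ∀ j < N y ω, y + Y y j s ω ≠ X s ω}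

/-! ## Grid versions -/

/-- the walk meets no trap at the times `0, h, 2h, …, n h` -/
def aliveG {Ω : Type u} (X : ℝ≥0 → Ω → ℤ) (N : ℤ → Ω → ℕ) (Y : ℤ → ℕ → ℝ≥0 → Ω → ℤ) (h : ℝ≥0)
    (n : ℕ) : Set Ω :=
  {ω | ∀ i : ℕ, i ≤ n → ∀ y : ℤ, ∀ j < N y ω, y + Y y j (i * h) ω ≠ X (i * h) ω}

/-- the list `[X_h, X_{2h}, …, X_{nh}]` -/
def gl {Ω : Type u} (X : ℝ≥0 → Ω → ℤ) (h : ℝ≥0) (n : ℕ) (ω : Ω) : List ℤ :=
  List.ofFn fun i : Fin n => X ((((i : ℕ) + 1 : ℕ) : ℝ≥0) * h) ω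

/-- the step law of the grid walk with `rate * mesh = s` -/
noncomputable def sk (s : ℝ≥0) (k : ℤ) : ℝ≥0∞ := skellam s {k}

/-- one step of a random walk with step law `q` -/
noncomputable def conv (q : ℤ → ℝ≥0∞) (f : ℤ → ℝ≥0∞) (z : ℤ) : ℝ≥0∞ := ∑' k, q k * f (z + k)

/-- `av q l f z = E_z[f(Y_{|l|}); Y_i ≠ l_i for i < |l|]` -/
noncomputable def av (q : ℤ → ℝ≥0∞) : List ℤ → (ℤ → ℝ≥0∞) → ℤ → ℝ≥0∞
  | [], f => f
  | x :: l, f => fun z => if z = x then 0 else conv q (av q l f) z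

/-- free evolution for `n` steps -/
noncomputable def fr (q : ℤ → ℝ≥0∞) : ℕ → (ℤ → ℝ≥0∞) → ℤ → ℝ≥0∞
  | 0, f => f
  | n + 1, f => conv q (fr q n f)

/-- `Wd q w r z`: the walk from `z` hits `w` (at some `i < |w|`) and afterwards avoids `r`
(free during `w`) -/
noncomputable def Wd (q : ℤ → ℝ≥0∞) : List ℤ → List ℤ → ℤ → ℝ≥0∞
  | [], _ => fun _ => 0
  | x :: w, r => fun z => if z = x then fr q (w.length + 1) (av q r fun _ => 1) z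
      else conv q (Wd q w r) z

/-- expected number (density one) of traps that hit the path `l` -/
noncomputable def Qh (q : ℤ → ℝ≥0∞) (l : List ℤ) : ℝ≥0∞ := ∑' y : ℤ, (1 - av q l (fun _ => 1) y)

/-- the same for the path `l`, then free for `m` steps, then `r` -/
noncomputable def Qo (q : ℤ → ℝ≥0∞) (l : List ℤ) (m : ℕ) (r : List ℤ) : ℝ≥0∞ :=
  ∑' y : ℤ, (1 - av q l (fr q m (av q r fun _ => 1)) y)

/-- probability that a Poisson system (density `ν`) of walks with step law `q` avoids the path `l`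
-/
noncomputable def surv (ν : ℝ≥0) (q : ℤ → ℝ≥0∞) (l : List ℤ) : ℝ≥0∞ :=
  ENNReal.ofReal (Real.exp (-(ν * (Qh q l).toReal)))

/-- expectation of `f [X_1, …, X_n]` for the walk with step law `p` started at `x` -/
noncomputable def EX (p : ℤ → ℝ≥0∞) : ℕ → ℤ → (List ℤ → ℝ≥0∞) → ℝ≥0∞
  | 0, _, f => f []
  | n + 1, x, f => ∑' x' : ℤ, p (x' - x) * EX p n x' (fun l => f (x' :: l))

/-- number of jumps of a path -/
def jumps : List ℤ → ℕ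
  | [] => 0
  | [_] => 0
  | a :: b :: l => (if a ≠ b then 1 else 0) + jumps (b :: l)

/-- all jumps are `±1`, and there are at most `J` of them -/
def good (J : ℕ) (l : List ℤ) : Prop := List.IsChain (fun a b => |b - a| ≤ 1) l ∧ jumps l ≤ J

open Classical in
/-- transition kernel in `m + 1` steps from `x` to `y` with the `m` intermediate points in
`[-a, a]` -/
noncomputable def win (p : ℤ → ℝ≥0∞) (m a : ℕ) (x y : ℤ) : ℝ≥0∞ :=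
  EX p m x fun w => (if ∀ v ∈ w, |v| ≤ (a : ℤ) then 1 else 0) * p (y - w.getLastD x)

/-- probability that the walk with step law `q` started from `y` is positive at the times
`0, …, k` -/
noncomputable def phi (q : ℤ → ℝ≥0∞) : ℕ → ℤ → ℝ≥0∞
  | 0, y => if 0 < y then 1 else 0
  | k + 1, y => if 0 < y then conv q (phi q k) y else 0

/-! ## Tasks -/

/-- basic facts on the Skellam law -/
def TaskA1 : Prop :=
  (∀ s, IsProbabilityMeasure (skellam s)) ∧ (∀ s k, sk s (-k) = sk s k) ∧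
  (∀ s, ∑' k, sk s k = 1) ∧ (∀ s r k, sk (s + r) k = ∑' j, sk s j * sk r (k - j))

open Classical in
def TaskA2 : Prop :=
  (∀ s : ℝ≥0, ∑' k, (if k ≠ 0 then sk s k else 0) ≤ s) ∧
  (∀ s : ℝ≥0, ∑' k, (if 2 ≤ |k| then sk s k else 0) ≤ (s ^ 2 : ℝ≥0)) ∧
  (∀ s : ℝ≥0, ENNReal.ofReal (Real.exp (-s)) ≤ sk s 0)

def TaskA3 : Prop :=
  ∃ C : ℝ≥0, ∀ (s : ℝ≥0) (k : ℤ), 0 < s → sk s k ≤ ENNReal.ofReal (C / √(s : ℝ))

def TaskA4 : Prop :=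
  ∀ K : ℝ, ∃ c : ℝ, 0 < c ∧ ∃ s0 : ℝ≥0, 0 < s0 ∧ ∀ s : ℝ≥0, s0 ≤ s → ∀ k : ℤ,
    |(k : ℝ)| ≤ K * √(s : ℝ) → ENNReal.ofReal (c / √(s : ℝ)) ≤ sk s k

def TaskA5 : Prop :=
  ∀ (s : ℝ≥0) (θ : ℝ), ∑' k : ℤ, sk s k * ENNReal.ofReal (Real.exp (θ * k)) =
    ENNReal.ofReal (Real.exp (s * (Real.cosh θ - 1)))

/-- reflection: the probability to stay positive up to step `k` -/
def RStmt : Prop :=
  ∃ C : ℝ≥0, ∀ s : ℝ≥0, 0 < s → ∀ (k : ℕ) (y : ℤ), 1 ≤ k → 0 < y →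
    phi (sk s) k y ≤ ENNReal.ofReal (C * y / √(k * s) + k * s ^ 2)

def TaskR : Prop := TaskA1 → TaskA2 → TaskA3 → RStmt

/-- bridges of length `T ∈ [R², 2R²]` between points of `[-R, R]`: leaving `[-R, R]` but not
`[-KR, KR]` has at least a constant times the probability of staying in `[-R, R]` -/
def BStmt : Prop :=
  ∀ κ : ℝ≥0, 0 < κ → ∃ K : ℕ, 1 ≤ K ∧ ∃ c : ℝ≥0, 0 < c ∧ ∃ R0 : ℕ, 1 ≤ R0 ∧
    ∀ R : ℕ, R0 ≤ R → ∀ T : ℝ≥0, (R : ℝ≥0) ^ 2 ≤ T → T ≤ 2 * (R : ℝ≥0) ^ 2 →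
    ∀ m : ℕ, 1 ≤ m → ∀ x y : ℤ, |x| ≤ R → |y| ≤ R →
      win (sk (κ * (T / (2 * m : ℕ)))) (2 * m - 1) R x y * (1 + c) ≤
        win (sk (κ * (T / (2 * m : ℕ)))) (2 * m - 1) (K * R) x y

def TaskB : Prop := TaskA1 → TaskA3 → TaskA4 → TaskA5 → BStmt

/-- law of the path on a grid -/
def TaskE1 : Prop :=
  ∀ (Ω : Type u) [MeasurableSpace Ω] (P : Measure Ω) [IsProbabilityMeasure P] (κ : ℝ≥0)
    (X : ℝ≥0 → Ω → ℤ), IsWalk P κ X → ∀ (h : ℝ≥0) (n : ℕ) (f : List ℤ → ℝ≥0∞),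
      ∫⁻ ω, f (gl X h n ω) ∂P = EX (sk (κ * h)) n 0 f

/-- the Poisson system of traps avoids the deterministic path `l` (at the times `0, h, 2h, …`) -/
def E2Stmt : Prop :=
  ∀ (Ω : Type u) [MeasurableSpace Ω] (P : Measure Ω) [IsProbabilityMeasure P] (κ ρ ν : ℝ≥0)
    (X : ℝ≥0 → Ω → ℤ) (N : ℤ → Ω → ℕ) (Y : ℤ → ℕ → ℝ≥0 → Ω → ℤ), TrapModel P κ ρ ν X N Y →
    ∀ (h : ℝ≥0) (l : List ℤ),
      P {ω | ∀ y : ℤ, ∀ j < N y ω, ∀ (i : ℕ) (hi : i < l.length),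
        y + Y y j (i * h) ω ≠ l[i]} = surv ν (sk (ρ * h)) l

def TaskE2 : Prop := TaskE1.{u} → E2Stmt.{u}

open Classical in
def E3Stmt : Prop :=
  ∀ (Ω : Type u) [MeasurableSpace Ω] (P : Measure Ω) [IsProbabilityMeasure P] (κ ρ ν : ℝ≥0)
    (X : ℝ≥0 → Ω → ℤ) (N : ℤ → Ω → ℕ) (Y : ℤ → ℕ → ℝ≥0 → Ω → ℤ), TrapModel P κ ρ ν X N Y →
    ∀ (h : ℝ≥0) (n : ℕ) (A : Set (List ℤ)),
      P ({ω | gl X h n ω ∈ A} ∩ aliveG X N Y h n) =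
        EX (sk (κ * h)) n 0 fun l => (if l ∈ A then 1 else 0) * surv ν (sk (ρ * h)) (0 :: l)

def TaskE3 : Prop := TaskE1.{u} → E2Stmt.{u} → E3Stmt.{u}

/-- the grid events decrease to the continuous time event -/
def TaskL : Prop :=
  ∀ (Ω : Type u) [MeasurableSpace Ω] (P : Measure Ω) [IsProbabilityMeasure P] (κ ρ ν : ℝ≥0)
    (X : ℝ≥0 → Ω → ℤ) (N : ℤ → Ω → ℕ) (Y : ℤ → ℕ → ℝ≥0 → Ω → ℤ), TrapModel P κ ρ ν X N Y →
    ∀ (t : ℝ≥0) (M : ℕ), 0 < M →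
      Tendsto (fun k : ℕ => P (aliveG X N Y (t / ((M * 2 ^ k : ℕ) : ℝ≥0)) (M * 2 ^ k))) atTop
        (𝓝 (P (alive X N Y t)))

/-- paths with a double jump or with many jumps are rare -/
def GStmt : Prop :=
  ∀ (Ω : Type u) [MeasurableSpace Ω] (P : Measure Ω) [IsProbabilityMeasure P] (κ : ℝ≥0)
    (X : ℝ≥0 → Ω → ℤ), IsWalk P κ X → ∀ (h : ℝ≥0) (n J : ℕ), 0 < J →
      P {ω | ¬ good J (0 :: gl X h n ω)} ≤
        ENNReal.ofReal (n * (κ * h) ^ 2 + κ * (n * h) / J)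

def TaskG : Prop := TaskA2 → GStmt.{u}

/-- the survival probability is positive -/
def PosStmt : Prop :=
  ∀ (Ω : Type u) [MeasurableSpace Ω] (P : Measure Ω) [IsProbabilityMeasure P] (κ ρ ν : ℝ≥0)
    (X : ℝ≥0 → Ω → ℤ) (N : ℤ → Ω → ℕ) (Y : ℤ → ℕ → ℝ≥0 → Ω → ℤ), TrapModel P κ ρ ν X N Y →
    ∀ t : ℝ≥0, 0 < P (alive X N Y t)

def TaskPos : Prop := TaskA1 → TaskA2 → TaskA5 → E3Stmt.{u} → TaskL.{u} → PosStmt.{u}

/-- the walk crosses a path in `[-R, R]` only by meeting it, up to double jumps -/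
def CrossStmt : Prop :=
  ∀ (s : ℝ≥0) (R J : ℕ) (l : List ℤ), l ≠ [] → (∀ v ∈ l, |v| ≤ (R : ℤ)) → good J l → ∀ z : ℤ,
    av (sk s) l (fun _ => 1) z ≤
      phi (sk s) (l.length - 1) (|z| + R + 1) + ENNReal.ofReal (2 * (l.length * s ^ 2 + J * s))

def TaskCross : Prop := TaskA1 → TaskA2 → CrossStmt

/-- exponential bound for hitting a window -/
def HitStmt : Prop :=
  ∀ (s : ℝ≥0) (θ : ℝ), 0 ≤ θ → ∀ (A : ℕ) (B : ℝ≥0∞) (r w : List ℤ), (∀ v ∈ w, |v| ≤ (A : ℤ)) →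
    (∀ (i : ℕ) (z : ℤ), i ≤ w.length → |z| ≤ (A : ℤ) →
      fr (sk s) i (av (sk s) r fun _ => 1) z ≤ B) →
    ∀ z : ℤ, Wd (sk s) w r z ≤
      B * ENNReal.ofReal (Real.exp (w.length * (s * (Real.cosh θ - 1)) + θ * (A - |(z : ℝ)|)))

def TaskHit : Prop := TaskA1 → TaskA5 → HitStmt

/-- reversal -/
def RevStmt : Prop :=
  ∀ (s : ℝ≥0) (l : List ℤ) (f : ℤ → ℝ≥0∞), l ≠ [] →
    ∑' y : ℤ, av (sk s) l f y =
      ∑' z : ℤ, conv (sk s) (av (sk s) l.reverse fun _ => 1) z * f z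

def TaskRev : Prop := TaskA1 → RevStmt

/-- comparison of the path with and without the window -/
def SplitStmt : Prop :=
  ∀ (s : ℝ≥0) (l w r : List ℤ),
    Qh (sk s) (l ++ w ++ r) = Qo (sk s) l w.length r + ∑' y : ℤ, av (sk s) l (Wd (sk s) w r) y ∧
    Qh (sk s) (l ++ w ++ r) < ∞

def TaskSplit : Prop := TaskA1 → SplitStmt

/-- the window costs at most `C R³ / t + 1` -/
def WinStmt : Prop :=
  ∀ ρ : ℝ≥0, 0 < ρ → ∀ K : ℕ, 1 ≤ K → ∃ C : ℝ≥0, ∃ R0 : ℕ, 1 ≤ R0 ∧ ∀ R : ℕ, R0 ≤ R →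
    ∀ t : ℝ≥0, 16 * (R : ℝ≥0) ^ 2 ≤ t → ∀ J : ℕ, ∃ h0 : ℝ≥0, 0 < h0 ∧ ∀ h : ℝ≥0, 0 < h → h ≤ h0 →
    ∀ l w r : List ℤ, good J l → good J r → (∀ v ∈ l, |v| ≤ (R : ℤ)) → (∀ v ∈ r, |v| ≤ (R : ℤ)) →
      (∀ v ∈ w, |v| ≤ ((K * R : ℕ) : ℤ)) → t / 8 ≤ l.length * h → t / 8 ≤ r.length * h →
      l.length * h ≤ 2 * t → r.length * h ≤ 2 * t → w.length * h ≤ 2 * (R : ℝ≥0) ^ 2 →
      ∑' y : ℤ, av (sk (ρ * h)) l (Wd (sk (ρ * h)) w r) y ≤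
        ENNReal.ofReal (C * (R : ℝ) ^ 3 / t + 1)

def TaskWin : Prop :=
  TaskA1 → TaskA3 → TaskA5 → RStmt → CrossStmt → HitStmt → RevStmt → WinStmt

/-- the grid version of the main estimate -/
def DStmt : Prop :=
  ∀ κ ρ ν : ℝ≥0, 0 < κ → 0 < ρ → ∃ C₁ C₂ : ℝ≥0, ∃ R0 : ℕ, 1 ≤ R0 ∧ ∀ R : ℕ, R0 ≤ R →
    ∀ t : ℝ≥0, 16 * (R : ℝ≥0) ^ 2 ≤ t → ∃ M : ℕ, 0 < M ∧ ∀ J : ℕ, ∀ᶠ k : ℕ in atTop,
      EX (sk (κ * (t / ((M * 2 ^ k : ℕ) : ℝ≥0)))) (M * 2 ^ k) 0 (fun l =>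
        (open Classical in if (∀ v ∈ l, |v| ≤ (R : ℤ)) ∧ good J (0 :: l) then (1 : ℝ≥0∞) else 0) *
          surv ν (sk (ρ * (t / ((M * 2 ^ k : ℕ) : ℝ≥0)))) (0 :: l)) ≤
      ENNReal.ofReal (C₂ * ((R : ℝ) ^ 2 / t) * Real.exp (C₁ * (R : ℝ) ^ 3 / t)) *
        EX (sk (κ * (t / ((M * 2 ^ k : ℕ) : ℝ≥0)))) (M * 2 ^ k) 0 (fun l =>
          surv ν (sk (ρ * (t / ((M * 2 ^ k : ℕ) : ℝ≥0)))) (0 :: l))

def TaskD : Prop := TaskA1 → BStmt → SplitStmt → WinStmt → DStmt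

/-- the main estimate -/
def MainStmt : Prop :=
  ∀ κ ρ ν : ℝ≥0, 0 < κ → 0 < ρ → ∃ C₁ C₂ : ℝ≥0, ∃ R0 : ℕ, 1 ≤ R0 ∧ ∀ R : ℕ, R0 ≤ R →
    ∀ t : ℝ≥0, 16 * (R : ℝ≥0) ^ 2 ≤ t →
    ∀ (Ω : Type u) [MeasurableSpace Ω] (P : Measure Ω) [IsProbabilityMeasure P]
      (X : ℝ≥0 → Ω → ℤ) (N : ℤ → Ω → ℕ) (Y : ℤ → ℕ → ℝ≥0 → Ω → ℤ), TrapModel P κ ρ ν X N Y →
      P ({ω | ∀ s ≤ t, |X s ω| ≤ (R : ℤ)} ∩ alive X N Y t) ≤
        ENNReal.ofReal (C₂ * ((R : ℝ) ^ 2 / t) * Real.exp (C₁ * (R : ℝ) ^ 3 / t)) *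
          P (alive X N Y t)

def TaskF : Prop := DStmt → E3Stmt.{u} → TaskL.{u} → GStmt.{u} → MainStmt.{u}

/-! ## The final statement -/

/-- the maximal displacement during `[0, t]` -/
noncomputable def supX {Ω : Type u} (X : ℝ≥0 → Ω → ℤ) (t : ℝ≥0) (ω : Ω) : ℝ≥0∞ :=
  ⨆ s ∈ Set.Iic t, ((X s ω).natAbs : ℝ≥0∞)

/-- `X` fluctuates on the scale `t^(1/3)` under the laws `Q t` -/
def FluctuatesOnScale {Ω : Type u} [MeasurableSpace Ω] (Q : ℝ≥0 → Measure Ω)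
    (X : ℝ≥0 → Ω → ℤ) : Prop :=
  ∀ ε : ℝ, 0 < ε → ∃ a b : ℝ, 0 < a ∧ a < b ∧ ∀ᶠ t : ℝ≥0 in atTop,
    ENNReal.ofReal (1 - ε) ≤ Q t {ω | ENNReal.ofReal (a * (t : ℝ) ^ (1 / 3 : ℝ)) ≤ supX X t ω ∧
      supX X t ω ≤ ENNReal.ofReal (b * (t : ℝ) ^ (1 / 3 : ℝ))}

/-- the rescaled end points of the range -/
noncomputable def W {Ω : Type u} (X : ℝ≥0 → Ω → ℤ) (t : ℝ≥0) (ω : Ω) : ℝ × ℝ :=
  ((t : ℝ) ^ (-(1 / 3) : ℝ) * ((sInf ((fun s => X s ω) '' Set.Iic t) : ℤ) : ℝ),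
   (t : ℝ) ^ (-(1 / 3) : ℝ) * ((sSup ((fun s => X s ω) '' Set.Iic t) : ℤ) : ℝ))

def FinalStmt : Prop :=
  ∀ κ ρ ν : ℝ≥0, 0 < κ → 0 < ρ →
    ∀ (Ω : Type u) [MeasurableSpace Ω] (P : Measure Ω) [IsProbabilityMeasure P]
      (X : ℝ≥0 → Ω → ℤ) (N : ℤ → Ω → ℕ) (Y : ℤ → ℕ → ℝ≥0 → Ω → ℤ), TrapModel P κ ρ ν X N Y →
      (∃ ε : ℝ, 0 < ε ∧ Tendsto (fun t : ℝ≥0 =>
        (ProbabilityTheory.cond P (alive X N Y t))
          {ω | supX X t ω ≤ ENNReal.ofReal (ε * ((t : ℝ) * Real.log t) ^ (1 / 3 : ℝ))})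
        atTop (𝓝 0)) ∧
      ¬ FluctuatesOnScale (fun t => ProbabilityTheory.cond P (alive X N Y t)) X ∧
      ¬ ∃ μ : Measure (ℝ × ℝ), IsProbabilityMeasure μ ∧
        ∀ f : BoundedContinuousFunction (ℝ × ℝ) ℝ,
          Tendsto (fun t : ℝ≥0 => ∫ ω, f (W X t ω) ∂(ProbabilityTheory.cond P (alive X N Y t)))
            atTop (𝓝 (∫ x, f x ∂μ))

/-- from the main estimate to the final statement -/
def TaskQ : Prop := MainStmt.{u} → PosStmt.{u} → FinalStmt.{u}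

theorem final (a1 : TaskA1) (a2 : TaskA2) (a3 : TaskA3) (a4 : TaskA4) (a5 : TaskA5)
    (tr : TaskR) (tb : TaskB) (e1 : TaskE1.{u}) (e2 : TaskE2.{u}) (e3 : TaskE3.{u})
    (tl : TaskL.{u}) (tg : TaskG.{u}) (tp : TaskPos.{u}) (tc : TaskCross) (th : TaskHit)
    (tv : TaskRev) (ts : TaskSplit) (tw : TaskWin) (td : TaskD) (tf : TaskF.{u})
    (tq : TaskQ.{u}) : PosStmt.{u} ∧ FinalStmt.{u} := by
  have r := tr a1 a2 a3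
  have b := tb a1 a3 a4 a5
  have e3' := e3 e1 (e2 e1)
  have pos := tp a1 a2 a5 e3' tl
  have w := tw a1 a3 a5 r (tc a1 a2) (th a1 a5) (tv a1)
  have d := td a1 b (ts a1) w
  have m := tf d e3' tl (tg a2)
  exact ⟨pos, tq m pos⟩

end Pool.Agent.H143R3.MT
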