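import Pool.Agent.H143R3.MT.EXL

namespace Pool.Agent.H143R3.MT

open MeasureTheory ProbabilityTheory Filter Topology
open scoped ENNReal NNReal

theorem jumps_concat₂ (a b : ℤ) : ∀ l : List ℤ,
    jumps (l ++ [b] ++ [a]) = jumps (l ++ [b]) + (if a ≠ b then 1 else 0)
  | [] => by
      by_cases h : a = b
      · subst h; simp [jumps]
      · have h' : b ≠ a := fun e => h e.symm
        simp [jumps, h, h']
  | [x] => by
      by_cases h : a = b
      · subst h; simp [jumps]
      · have h' : b ≠ a := fun e => h e.symm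
        simp [jumps, h, h']
  | x :: y :: l => by
      have := jumps_concat₂ a b (y :: l)
      simp only [List.cons_append, jumps] at this ⊢
      omega

theorem jumps_reverse : ∀ l : List ℤ, jumps l.reverse = jumps l
  | [] => rfl
  | [x] => rfl
  | a :: b :: l => by
      have ih := jumps_reverse (b :: l)
      rw [List.reverse_cons, List.reverse_cons, jumps_concat₂]
      rw [List.reverse_cons] at ih
      rw [ih]
      simp only [jumps]
      omega

theorem good_reverse {J : ℕ} {l : List ℤ} (h : good J l) : good J l.reverse := by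
  refine ⟨?_, by rw [jumps_reverse]; exact h.2⟩
  rw [List.isChain_reverse]
  refine h.1.imp fun a b hab => ?_
  rwa [abs_sub_comm]

theorem conv_le_conv (q : ℤ → ℝ≥0∞) {f g : ℤ → ℝ≥0∞} (h : ∀ z, f z ≤ g z) (z : ℤ) :
    conv q f z ≤ conv q g z :=
  ENNReal.tsum_le_tsum fun k => by gcongr; exact h _

theorem conv_const (q : ℤ → ℝ≥0∞) (c : ℝ≥0∞) (f : ℤ → ℝ≥0∞) (z : ℤ) :
    conv q (fun y => c * f y) z = c * conv q f z := by
  unfold conv
  rw [← ENNReal.tsum_mul_left]
  exact tsum_congr fun k => by ring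

theorem fr_le_fr (q : ℤ → ℝ≥0∞) {f g : ℤ → ℝ≥0∞} (h : ∀ z, f z ≤ g z) : ∀ (n : ℕ) (z : ℤ),
    fr q n f z ≤ fr q n g z
  | 0, z => h z
  | n + 1, z => conv_le_conv q (fun y => fr_le_fr q h n y) z

theorem fr_const (q : ℤ → ℝ≥0∞) (c : ℝ≥0∞) (f : ℤ → ℝ≥0∞) : ∀ (n : ℕ) (z : ℤ),
    fr q n (fun y => c * f y) z = c * fr q n f z
  | 0, z => rfl
  | n + 1, z => by
      show conv q (fr q n (fun y => c * f y)) z = c * conv q (fr q n f) z
      rw [← conv_const]
      congr 1
      ext y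
      exact fr_const q c f n y

/-- the even exponential -/
noncomputable def gE (θ : ℝ) (y : ℤ) : ℝ≥0∞ :=
  ENNReal.ofReal (Real.exp (θ * y)) + ENNReal.ofReal (Real.exp (-θ * y))

theorem conv_exp (h5 : TaskA5) (s : ℝ≥0) (θ : ℝ) (z : ℤ) :
    conv (sk s) (fun y => ENNReal.ofReal (Real.exp (θ * y))) z =
      ENNReal.ofReal (Real.exp (s * (Real.cosh θ - 1))) * ENNReal.ofReal (Real.exp (θ * z)) := by
  unfold conv
  rw [← h5 s θ, ← ENNReal.tsum_mul_right]
  refine tsum_congr fun k => ?_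
  rw [mul_assoc, ← ENNReal.ofReal_mul (Real.exp_pos _).le, ← Real.exp_add]
  congr 3
  push_cast
  ring

theorem conv_gE (h5 : TaskA5) (s : ℝ≥0) (θ : ℝ) (z : ℤ) :
    conv (sk s) (gE θ) z = ENNReal.ofReal (Real.exp (s * (Real.cosh θ - 1))) * gE θ z := by
  have h1 := conv_exp h5 s θ z
  have h2 := conv_exp h5 s (-θ) z
  rw [Real.cosh_neg] at h2
  unfold gE
  rw [mul_add, ← h1, ← h2]
  unfold conv
  rw [← ENNReal.tsum_add]
  exact tsum_congr fun k => by ring

theorem fr_gE (h5 : TaskA5) (s : ℝ≥0) (θ : ℝ) : ∀ (n : ℕ) (z : ℤ),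
    fr (sk s) n (gE θ) z = ENNReal.ofReal (Real.exp (n * (s * (Real.cosh θ - 1)))) * gE θ z
  | 0, z => by simp [fr]
  | n + 1, z => by
      show conv (sk s) (fr (sk s) n (gE θ)) z = _
      have : fr (sk s) n (gE θ) = fun y =>
          ENNReal.ofReal (Real.exp (n * (s * (Real.cosh θ - 1)))) * gE θ y := by
        ext y; exact fr_gE h5 s θ n y
      rw [this, conv_const, conv_gE h5, ← mul_assoc, ← ENNReal.ofReal_mul (Real.exp_pos _).le,
        ← Real.exp_add]
      congr 3
      push_cast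
      ring

theorem cosh_sub_one_le {x : ℝ} (h0 : 0 ≤ x) (h1 : x ≤ 1) : Real.cosh x - 1 ≤ x ^ 2 := by
  have h2 := Real.abs_exp_sub_one_sub_id_le (x := x) (by rw [abs_of_nonneg h0]; exact h1)
  have h3 := Real.abs_exp_sub_one_sub_id_le (x := -x) (by rw [abs_neg, abs_of_nonneg h0]; exact h1)
  rw [Real.cosh_eq]
  have h4 := (abs_le.mp h2).2
  have h5 := (abs_le.mp h3).2
  have : (-x) ^ 2 = x ^ 2 := by ring
  rw [this] at h5
  linarith

/-- `|y| + a R ≤ ...` exponential domination -/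
theorem gE_ge (R : ℝ) (y : ℤ) :
    ENNReal.ofReal (Real.exp (|(y : ℝ)| / R)) ≤ gE (1 / R) y := by
  unfold gE
  rcases le_total 0 (y : ℝ) with h | h
  · rw [abs_of_nonneg h]
    refine le_trans (le_of_eq ?_) le_self_add
    congr 2; ring
  · rw [abs_of_nonpos h]
    refine le_trans (le_of_eq ?_) le_add_self
    congr 2; ring

theorem sum_exp_abs (u : ℝ) (h0 : 0 < u) (h1 : u ≤ 1) :
    ∑' z : ℤ, ENNReal.ofReal (Real.exp (-(u * |(z : ℝ)|))) ≤ ENNReal.ofReal (4 / u) := by
  -- geometric series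
  have hr0 : 0 ≤ Real.exp (-u) := (Real.exp_pos _).le
  have hr1 : Real.exp (-u) < 1 := by rw [Real.exp_lt_one_iff]; linarith
  have hgeo : ∑' n : ℕ, ENNReal.ofReal (Real.exp (-(u * n))) = ENNReal.ofReal ((1 - Real.exp (-u))⁻¹) := by
    have e : ∀ n : ℕ, Real.exp (-(u * n)) = Real.exp (-u) ^ n := by
      intro n
      rw [← Real.exp_nat_mul]
      congr 1; ring
    simp_rw [e]
    rw [← ENNReal.ofReal_tsum_of_nonneg (fun n => by positivity)
      (summable_geometric_of_lt_one hr0 hr1), tsum_geometric_of_lt_one hr0 hr1]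
  have hinv : (1 - Real.exp (-u))⁻¹ ≤ 2 / u := by
    have h3 : u / 2 ≤ 1 - Real.exp (-u) := by
      have h4 : Real.exp (-u) ≤ 1 / (1 + u) := by
        rw [Real.exp_neg, ← one_div]
        apply one_div_le_one_div_of_le (by linarith)
        have := Real.add_one_le_exp u
        linarith
      have h6 : 1 / (1 + u) ≤ 1 - u / 2 := by
        rw [div_le_iff₀ (by linarith)]
        nlinarith
      linarith
    rw [inv_le_comm₀ (by linarith [half_pos h0]) (by positivity)]
    rw [inv_div]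
    exact h3
  rw [tsum_of_nat_of_neg_add_one ENNReal.summable ENNReal.summable]
  have h2 : ∑' n : ℕ, ENNReal.ofReal (Real.exp (-(u * |(((n : ℕ) : ℤ) : ℝ)|))) ≤
      ENNReal.ofReal (2 / u) := by
    refine le_trans (le_of_eq ?_) (ENNReal.ofReal_le_ofReal hinv)
    rw [← hgeo]
    refine tsum_congr fun n => ?_
    congr 4
    simp
  have h3 : ∑' n : ℕ, ENNReal.ofReal (Real.exp (-(u * |((-((n : ℤ) + 1) : ℤ) : ℝ)|))) ≤
      ENNReal.ofReal (2 / u) := by
    refine le_trans ?_ (ENNReal.ofReal_le_ofReal hinv)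
    rw [← hgeo]
    refine ENNReal.tsum_le_tsum fun n => ?_
    apply ENNReal.ofReal_le_ofReal
    apply Real.exp_le_exp.mpr
    have e : |((-((n : ℤ) + 1) : ℤ) : ℝ)| = n + 1 := by
      push_cast
      rw [abs_neg, abs_of_nonneg (by positivity)]
    rw [e]
    nlinarith
  calc _ ≤ ENNReal.ofReal (2 / u) + ENNReal.ofReal (2 / u) := add_le_add h2 h3
    _ = ENNReal.ofReal (4 / u) := by
      rw [← ENNReal.ofReal_add (by positivity) (by positivity)]
      congr 1; ring

end Pool.Agent.H143R3.MT
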