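import Pool.Agent.H143R3.MT.Win1

namespace Pool.Agent.H143R3.MT

open MeasureTheory ProbabilityTheory Filter Topology
open scoped ENNReal NNReal

theorem taskWin : TaskWin := by
  intro hA1 hA3 hA5 hRf hC hH hV ρ hρ K hK
  obtain ⟨Cr, hCr⟩ := hRf
  have hρR : (0 : ℝ) < ρ := by exact_mod_cast hρ
  set D : ℝ := Cr + 1 with hD
  have hDpos : 0 < D := by positivity
  set E : ℝ := Real.exp (2 * ρ + K) with hE
  have hEpos : 0 < E := Real.exp_pos _
  refine ⟨Real.toNNReal (11264 * D ^ 2 * E ^ 2 / ρ), 1, le_rfl, ?_⟩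
  intro R hR1 t ht J
  have hRR : (1 : ℝ) ≤ R := by exact_mod_cast hR1
  have hRpos : (0 : ℝ) < R := by linarith
  have htpos : (0 : ℝ) < t := by
    have h1 : 16 * (R : ℝ) ^ 2 ≤ t := by exact_mod_cast ht
    have : (0 : ℝ) < 16 * (R : ℝ) ^ 2 := by positivity
    linarith
  have hsq : 0 < √((ρ : ℝ) * t) := Real.sqrt_pos.mpr (by positivity)
  set α : ℝ := 4 * D / √((ρ : ℝ) * t) with hα
  have hαpos : 0 < α := by positivity
  set c0 : ℝ := 6 * t * (ρ : ℝ) ^ 2 + 2 * J * ρ + 1 with hc0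
  have hc0pos : 0 < c0 := by positivity
  set h0 : ℝ := min (t / 16) (min (1 / ρ) (α / c0)) with hh0
  have hh0pos : 0 < h0 := by
    rw [hh0]
    refine lt_min (by positivity) (lt_min (by positivity) (by positivity))
  refine ⟨Real.toNNReal h0, Real.toNNReal_pos.mpr hh0pos, ?_⟩
  intro h hhpos hh l w r hgl hgr hbl hbr hbw hl1 hr1 hl2 hr2 hw
  have hhR : (0 : ℝ) < h := by exact_mod_cast hhpos
  have hhle : (h : ℝ) ≤ h0 := by
    have : (h : ℝ) ≤ ((Real.toNNReal h0 : ℝ≥0) : ℝ) := by exact_mod_cast hh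
    rwa [Real.coe_toNNReal _ hh0pos.le] at this
  have hh16 : (h : ℝ) ≤ t / 16 := hhle.trans (min_le_left _ _)
  have hhρ : (h : ℝ) ≤ 1 / ρ := hhle.trans ((min_le_right _ _).trans (min_le_left _ _))
  have hhα : (h : ℝ) * c0 ≤ α := by
    have : (h : ℝ) ≤ α / c0 := hhle.trans ((min_le_right _ _).trans (min_le_right _ _))
    rwa [le_div_iff₀ hc0pos] at this
  have hs1 : (((ρ * h : ℝ≥0)) : ℝ) ≤ 1 := by
    push_cast
    rw [le_div_iff₀ hρR] at hhρ
    linarith
  have hspos : 0 < ρ * h := mul_pos hρ hhpos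
  have hsR : (((ρ * h : ℝ≥0)) : ℝ) = ρ * h := by push_cast; rfl
  -- bound on avoidance probabilities
  have avb : ∀ l' : List ℤ, good J l' → (∀ v ∈ l', |v| ≤ (R : ℤ)) → (t : ℝ) / 8 ≤ l'.length * h →
      (l'.length : ℝ) * h ≤ 2 * t → ∀ z : ℤ, av (sk (ρ * h)) l' (fun _ => 1) z ≤
        ENNReal.ofReal (α * (|(z : ℝ)| + R + 2)) := by
    intro l' hg hb h1 h2 z
    have hlen : (2 : ℝ) ≤ l'.length := by
      have : 2 * (h : ℝ) ≤ l'.length * h := by linarith
      exact le_of_mul_le_mul_right this hhR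
    have hlen' : 2 ≤ l'.length := by exact_mod_cast hlen
    have hne : l' ≠ [] := by
      intro e; rw [e] at hlen'; simp at hlen'
    have hk : (((l'.length - 1 : ℕ)) : ℝ) = l'.length - 1 := by
      rw [Nat.cast_sub (by omega)]; simp
    have hypos : (0 : ℤ) < |z| + R + 1 := by positivity
    refine (hC (ρ * h) R J l' hne hb hg z).trans ?_
    refine (add_le_add_left (hCr (ρ * h) hspos (l'.length - 1) (|z| + R + 1) (by omega) hypos)
      _).trans ?_
    rw [← ENNReal.ofReal_add (by positivity) (by positivity)]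
    apply ENNReal.ofReal_le_ofReal
    have e1 : √((ρ : ℝ) * t) / 4 ≤ √((((l'.length - 1 : ℕ)) : ℝ) * ((ρ * h : ℝ≥0) : ℝ)) := by
      apply Real.le_sqrt_of_sq_le
      rw [div_pow, Real.sq_sqrt (by positivity), hk, hsR]
      have : (t : ℝ) / 16 ≤ (l'.length - 1) * h := by nlinarith
      nlinarith
    have hycast : (((|z| + R + 1 : ℤ)) : ℝ) = |(z : ℝ)| + R + 1 := by push_cast; rfl
    rw [hycast]
    have e2 : (Cr : ℝ) * (|(z : ℝ)| + R + 1) /
        √((((l'.length - 1 : ℕ)) : ℝ) * ((ρ * h : ℝ≥0) : ℝ)) ≤ α * (|(z : ℝ)| + R + 1) := by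
      calc (Cr : ℝ) * (|(z : ℝ)| + R + 1) / √((((l'.length - 1 : ℕ)) : ℝ) * ((ρ * h : ℝ≥0) : ℝ))
          ≤ D * (|(z : ℝ)| + R + 1) / (√((ρ : ℝ) * t) / 4) := by
            gcongr
            linarith
        _ = α * (|(z : ℝ)| + R + 1) := by rw [hα]; field_simp
    have e3 : (((l'.length - 1 : ℕ)) : ℝ) * ((ρ * h : ℝ≥0) : ℝ) ^ 2 +
        2 * ((l'.length : ℝ) * ((ρ * h : ℝ≥0) : ℝ) ^ 2 + J * ((ρ * h : ℝ≥0) : ℝ)) ≤ α := by
      refine le_trans ?_ hhα
      rw [hk, hsR, hc0]
      have e4 : ((l'.length : ℝ) - 1) * ((ρ : ℝ) * h) ^ 2 ≤ l'.length * ((ρ : ℝ) * h) ^ 2 := by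
        have : (0 : ℝ) ≤ ((ρ : ℝ) * h) ^ 2 := by positivity
        nlinarith
      have e5 : (l'.length : ℝ) * ((ρ : ℝ) * h) ^ 2 ≤ 2 * t * ((ρ : ℝ) ^ 2 * h) := by
        have : (l'.length : ℝ) * ((ρ : ℝ) * h) ^ 2 = (l'.length * h) * ((ρ : ℝ) ^ 2 * h) := by ring
        rw [this]
        gcongr
      have : 0 ≤ (h : ℝ) := hhR.le
      nlinarith
    linarith
  -- real versions of the assumptions
  have hl1' : (t : ℝ) / 8 ≤ (l.length : ℝ) * h := by exact_mod_cast hl1
  have hr1' : (t : ℝ) / 8 ≤ (r.length : ℝ) * h := by exact_mod_cast hr1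
  have hl2' : (l.length : ℝ) * h ≤ 2 * t := by exact_mod_cast hl2
  have hr2' : (r.length : ℝ) * h ≤ 2 * t := by exact_mod_cast hr2
  have hw' : (w.length : ℝ) * h ≤ 2 * (R : ℝ) ^ 2 := by exact_mod_cast hw
  have hlne : l ≠ [] := by
    intro e
    rw [e] at hl1'
    simp only [List.length_nil, Nat.cast_zero, zero_mul] at hl1'
    linarith
  -- past
  have past : ∀ z : ℤ, conv (sk (ρ * h)) (av (sk (ρ * h)) l.reverse fun _ => 1) z ≤
      ENNReal.ofReal (α * (|(z : ℝ)| + R + 8)) := by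
    intro z
    have hb := avb l.reverse (good_reverse hgl) (fun v hv => hbl v (List.mem_reverse.mp hv))
      (by rw [List.length_reverse]; exact hl1') (by rw [List.length_reverse]; exact hl2')
    calc conv (sk (ρ * h)) (av (sk (ρ * h)) l.reverse fun _ => 1) z
        ≤ ∑' k : ℤ, sk (ρ * h) k * (ENNReal.ofReal (α * (|(z : ℝ)| + R + 2)) +
            ENNReal.ofReal α * gE 1 (0 + k)) := by
          refine ENNReal.tsum_le_tsum fun k => ?_
          gcongr
          refine (hb (z + k)).trans ?_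
          have h1 : ENNReal.ofReal (Real.exp |(k : ℝ)|) ≤ gE 1 (0 + k) := by
            have := gE_ge 1 k
            simpa using this
          refine le_trans ?_ (add_le_add_right (mul_le_mul_right h1 (ENNReal.ofReal α)) _)
          rw [← ENNReal.ofReal_mul hαpos.le, ← ENNReal.ofReal_add (by positivity) (by positivity)]
          apply ENNReal.ofReal_le_ofReal
          have h2 : |(((z + k : ℤ)) : ℝ)| ≤ |(z : ℝ)| + |(k : ℝ)| := by
            push_cast; exact abs_add_le _ _
          have h3 : |(k : ℝ)| ≤ Real.exp |(k : ℝ)| := by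
            have := Real.add_one_le_exp |(k : ℝ)|
            linarith
          rw [← mul_add]
          apply mul_le_mul_of_nonneg_left _ hαpos.le
          linarith
      _ = ENNReal.ofReal (α * (|(z : ℝ)| + R + 2)) +
            ENNReal.ofReal α * conv (sk (ρ * h)) (gE 1) 0 := by
          simp_rw [mul_add]
          rw [ENNReal.tsum_add, ENNReal.tsum_mul_right, hA1.2.2.1, one_mul]
          congr 1
          unfold conv
          rw [← ENNReal.tsum_mul_left]
          exact tsum_congr fun k => by ring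
      _ ≤ ENNReal.ofReal (α * (|(z : ℝ)| + R + 2)) + ENNReal.ofReal α * ENNReal.ofReal 6 := by
          gcongr
          rw [conv_gE hA5]
          have hg0 : gE 1 0 = ENNReal.ofReal 2 := by
            unfold gE
            simp
            norm_num
          rw [hg0, ← ENNReal.ofReal_mul (Real.exp_pos _).le]
          apply ENNReal.ofReal_le_ofReal
          have h1 : Real.cosh 1 - 1 ≤ 1 := by
            have := cosh_sub_one_le (x := 1) (by norm_num) le_rfl
            simpa using this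
          have h2 : ((ρ * h : ℝ≥0) : ℝ) * (Real.cosh 1 - 1) ≤ 1 := by
            have h3 : 0 ≤ Real.cosh 1 - 1 := by
              have := Real.one_le_cosh 1; linarith
            calc ((ρ * h : ℝ≥0) : ℝ) * (Real.cosh 1 - 1) ≤ 1 * 1 := by gcongr
              _ = 1 := one_mul 1
          have h4 : Real.exp (((ρ * h : ℝ≥0) : ℝ) * (Real.cosh 1 - 1)) ≤ Real.exp 1 :=
            Real.exp_le_exp.mpr h2
          have h5 := Real.exp_one_lt_d9
          linarith
      _ = ENNReal.ofReal (α * (|(z : ℝ)| + R + 8)) := by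
          rw [← ENNReal.ofReal_mul hαpos.le, ← ENNReal.ofReal_add (by positivity) (by positivity)]
          congr 1; ring
  -- the exponent
  have hR0 : (0 : ℝ) ≤ 1 / (R : ℝ) := by positivity
  have hcosh : Real.cosh (1 / (R : ℝ)) - 1 ≤ (1 / (R : ℝ)) ^ 2 :=
    cosh_sub_one_le hR0 (by rw [div_le_one hRpos]; exact hRR)
  have hcosh0 : 0 ≤ Real.cosh (1 / (R : ℝ)) - 1 := by
    have := Real.one_le_cosh (1 / (R : ℝ)); linarith
  have hexpo : ∀ i : ℕ, i ≤ w.length →
      (i : ℝ) * (((ρ * h : ℝ≥0) : ℝ) * (Real.cosh (1 / (R : ℝ)) - 1)) ≤ 2 * ρ := by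
    intro i hi
    have hi' : (i : ℝ) ≤ w.length := by exact_mod_cast hi
    rw [hsR]
    calc (i : ℝ) * ((ρ : ℝ) * h * (Real.cosh (1 / (R : ℝ)) - 1))
        ≤ w.length * ((ρ : ℝ) * h * (1 / (R : ℝ)) ^ 2) := by gcongr
      _ = (w.length * h) * (ρ * (1 / (R : ℝ)) ^ 2) := by ring
      _ ≤ (2 * (R : ℝ) ^ 2) * (ρ * (1 / (R : ℝ)) ^ 2) := by gcongr
      _ = 2 * ρ := by field_simp
  -- future
  set β : ℝ := 8 * α * R * E with hβ
  have hβpos : 0 < β := by positivity
  have fut : ∀ (i : ℕ) (z : ℤ), i ≤ w.length → |z| ≤ ((K * R : ℕ) : ℤ) →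
      fr (sk (ρ * h)) i (av (sk (ρ * h)) r fun _ => 1) z ≤ ENNReal.ofReal β := by
    intro i z hi hz
    have hb := avb r hgr hbr hr1' hr2'
    have hb2 : ∀ y : ℤ, av (sk (ρ * h)) r (fun _ => 1) y ≤
        ENNReal.ofReal (4 * α * R) * gE (1 / R) y := by
      intro y
      refine (hb y).trans ?_
      refine le_trans ?_ (mul_le_mul_right (gE_ge (R : ℝ) y) _)
      rw [← ENNReal.ofReal_mul (by positivity)]
      apply ENNReal.ofReal_le_ofReal
      have h1 : |(y : ℝ)| ≤ R * Real.exp (|(y : ℝ)| / R) := by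
        have := Real.add_one_le_exp (|(y : ℝ)| / R)
        have h2 : |(y : ℝ)| / R ≤ Real.exp (|(y : ℝ)| / R) := by linarith
        rwa [div_le_iff₀ hRpos, mul_comm] at h2
      have h2 : 1 ≤ Real.exp (|(y : ℝ)| / R) := Real.one_le_exp (by positivity)
      have h3 : |(y : ℝ)| + R + 2 ≤ 4 * R * Real.exp (|(y : ℝ)| / R) := by nlinarith
      calc α * (|(y : ℝ)| + R + 2) ≤ α * (4 * R * Real.exp (|(y : ℝ)| / R)) := by gcongr
        _ = 4 * α * R * Real.exp (|(y : ℝ)| / R) := by ring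
    refine (fr_le_fr _ hb2 i z).trans ?_
    rw [fr_const, fr_gE hA5]
    have hg : gE (1 / (R : ℝ)) z ≤ ENNReal.ofReal (2 * Real.exp K) := by
      have hzR : |(z : ℝ)| ≤ K * R := by
        have : ((|z| : ℤ) : ℝ) ≤ (((K * R : ℕ) : ℤ) : ℝ) := by exact_mod_cast hz
        simpa using this
      obtain ⟨hz1, hz2⟩ := abs_le.mp hzR
      unfold gE
      rw [← ENNReal.ofReal_add (by positivity) (by positivity)]
      apply ENNReal.ofReal_le_ofReal
      have h1 : Real.exp (1 / (R : ℝ) * z) ≤ Real.exp K := by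
        apply Real.exp_le_exp.mpr
        rw [one_div, inv_mul_le_iff₀ hRpos]; linarith
      have h2 : Real.exp (-(1 / (R : ℝ)) * z) ≤ Real.exp K := by
        apply Real.exp_le_exp.mpr
        rw [neg_mul, ← mul_neg, one_div, inv_mul_le_iff₀ hRpos]; linarith
      linarith
    calc ENNReal.ofReal (4 * α * R) *
        (ENNReal.ofReal (Real.exp ((i : ℝ) * (((ρ * h : ℝ≥0) : ℝ) *
          (Real.cosh (1 / (R : ℝ)) - 1)))) * gE (1 / R) z)
        ≤ ENNReal.ofReal (4 * α * R) * (ENNReal.ofReal (Real.exp (2 * ρ)) *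
          ENNReal.ofReal (2 * Real.exp K)) := by
          refine mul_le_mul_right (mul_le_mul' ?_ hg) _
          exact ENNReal.ofReal_le_ofReal (Real.exp_le_exp.mpr (hexpo i hi))
      _ = ENNReal.ofReal β := by
          rw [← ENNReal.ofReal_mul (Real.exp_pos _).le, ← ENNReal.ofReal_mul (by positivity)]
          congr 1
          rw [hβ, hE, Real.exp_add]; ring
  -- the window
  have wb : ∀ z : ℤ, Wd (sk (ρ * h)) w r z ≤
      ENNReal.ofReal (β * E * Real.exp (-(|(z : ℝ)| / R))) := by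
    intro z
    refine (hH (ρ * h) (1 / R) hR0 (K * R) (ENNReal.ofReal β) r w hbw fut z).trans ?_
    rw [← ENNReal.ofReal_mul hβpos.le]
    apply ENNReal.ofReal_le_ofReal
    have h1 := hexpo w.length le_rfl
    have h2 : 1 / (R : ℝ) * (((K * R : ℕ) : ℝ) - |(z : ℝ)|) = K - |(z : ℝ)| / R := by
      push_cast
      field_simp
    have h3 : Real.exp (w.length * (((ρ * h : ℝ≥0) : ℝ) * (Real.cosh (1 / (R : ℝ)) - 1)) +
        1 / (R : ℝ) * (((K * R : ℕ) : ℝ) - |(z : ℝ)|)) ≤ E * Real.exp (-(|(z : ℝ)| / R)) := by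
      rw [hE, ← Real.exp_add, h2]
      apply Real.exp_le_exp.mpr
      linarith
    calc _ ≤ β * (E * Real.exp (-(|(z : ℝ)| / R))) := mul_le_mul_of_nonneg_left h3 hβpos.le
      _ = _ := by ring
  -- summation
  rw [hV (ρ * h) l _ hlne]
  calc ∑' z : ℤ, conv (sk (ρ * h)) (av (sk (ρ * h)) l.reverse fun _ => 1) z *
        Wd (sk (ρ * h)) w r z
      ≤ ∑' z : ℤ, ENNReal.ofReal (11 * α * β * E * R) *
          ENNReal.ofReal (Real.exp (-(1 / (2 * R) * |(z : ℝ)|))) := by
        refine ENNReal.tsum_le_tsum fun z => ?_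
        refine (mul_le_mul' (past z) (wb z)).trans ?_
        rw [← ENNReal.ofReal_mul (by positivity), ← ENNReal.ofReal_mul (by positivity)]
        apply ENNReal.ofReal_le_ofReal
        set u : ℝ := |(z : ℝ)| / (2 * R) with hu
        have hu0 : 0 ≤ u := by positivity
        have e1 : |(z : ℝ)| = 2 * R * u := by rw [hu]; field_simp
        have e2 : |(z : ℝ)| / R = 2 * u := by rw [hu]; field_simp
        have e3 : 1 / (2 * (R : ℝ)) * |(z : ℝ)| = u := by rw [hu]; ring
        rw [e2, e3, e1]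
        have h1 : u ≤ Real.exp u := by have := Real.add_one_le_exp u; linarith
        have h2 : 1 ≤ Real.exp u := Real.one_le_exp hu0
        have h3 : 2 * R * u + R + 8 ≤ 11 * R * Real.exp u := by nlinarith
        have h4 : Real.exp (-(2 * u)) = Real.exp (-u) * Real.exp (-u) := by
          rw [← Real.exp_add]; congr 1; ring
        have h5 : Real.exp u * Real.exp (-u) = 1 := by
          rw [← Real.exp_add]; simp
        calc α * (2 * R * u + R + 8) * (β * E * Real.exp (-(2 * u)))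
            ≤ α * (11 * R * Real.exp u) * (β * E * Real.exp (-(2 * u))) := by gcongr
          _ = 11 * α * β * E * R * (Real.exp u * Real.exp (-u)) * Real.exp (-u) := by
              rw [h4]; ring
          _ = 11 * α * β * E * R * Real.exp (-u) := by rw [h5]; ring
    _ = ENNReal.ofReal (11 * α * β * E * R) *
          ∑' z : ℤ, ENNReal.ofReal (Real.exp (-(1 / (2 * R) * |(z : ℝ)|))) :=
        ENNReal.tsum_mul_left
    _ ≤ ENNReal.ofReal (11 * α * β * E * R) * ENNReal.ofReal (4 / (1 / (2 * R))) := by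
        gcongr
        refine sum_exp_abs _ (by positivity) ?_
        rw [div_le_one (by positivity)]; linarith
    _ ≤ ENNReal.ofReal ((Real.toNNReal (11264 * D ^ 2 * E ^ 2 / ρ) : ℝ≥0) * (R : ℝ) ^ 3 / t + 1) := by
        rw [← ENNReal.ofReal_mul (by positivity)]
        apply ENNReal.ofReal_le_ofReal
        rw [Real.coe_toNNReal _ (by positivity)]
        have hα2 : α ^ 2 = 16 * D ^ 2 / (ρ * t) := by
          rw [hα, div_pow, Real.sq_sqrt (by positivity)]; ring
        have e1 : 11 * α * β * E * R * (4 / (1 / (2 * (R : ℝ)))) = 704 * α ^ 2 * E ^ 2 * R ^ 3 := by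
          rw [hβ]; field_simp; ring
        rw [e1, hα2]
        have e2 : 704 * (16 * D ^ 2 / ((ρ : ℝ) * t)) * E ^ 2 * (R : ℝ) ^ 3 =
            11264 * D ^ 2 * E ^ 2 / ρ * (R : ℝ) ^ 3 / t := by
          field_simp; ring
        rw [e2]
        linarith

end Pool.Agent.H143R3.MT
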